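import Mathlib

set_option autoImplicit false

open Set Filter Topology

namespace Pool.Agent.E8helper98.FG

/-- A set of integers with all differences less than `L + 1` has less than `L + 2` elements. -/
lemma int_set_card (S : Set ℤ) (L : ℝ) (hL : 0 ≤ L) (h : ∀ x ∈ S, ∀ y ∈ S, ((x - y : ℤ) : ℝ) < L + 1) :
    ∃ F : Finset ℤ, (∀ x ∈ S, x ∈ F) ∧ (F.card : ℝ) ≤ L + 2 := by
  rcases S.eq_empty_or_nonempty with rfl | ⟨x0, hx0⟩
  · exact ⟨∅, by simp, by simp; linarith⟩
  · have hfin : S.Finite := by
      refine (Set.finite_Icc (x0 - ⌈L + 1⌉) (x0 + ⌈L + 1⌉)).subset fun x hx => ?_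
      have h1 := h x hx x0 hx0
      have h2 := h x0 hx0 x hx
      have h3 := Int.le_ceil (L + 1)
      constructor
      · have : ((x0 - x : ℤ) : ℝ) < (⌈L + 1⌉ : ℝ) := lt_of_lt_of_le h2 h3
        have : x0 - x < ⌈L + 1⌉ := by exact_mod_cast this
        omega
      · have : ((x - x0 : ℤ) : ℝ) < (⌈L + 1⌉ : ℝ) := lt_of_lt_of_le h1 h3
        have : x - x0 < ⌈L + 1⌉ := by exact_mod_cast this
        omega
    have hne : hfin.toFinset.Nonempty := ⟨x0, by simpa using hx0⟩
    set a := hfin.toFinset.min' hne with ha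
    set b := hfin.toFinset.max' hne with hb
    refine ⟨Finset.Icc a b, fun x hx => ?_, ?_⟩
    · rw [Finset.mem_Icc]
      exact ⟨Finset.min'_le _ _ (by simpa using hx), Finset.le_max' _ _ (by simpa using hx)⟩
    · have h1 : a ∈ S := by simpa using hfin.toFinset.min'_mem hne
      have h2 : b ∈ S := by simpa using hfin.toFinset.max'_mem hne
      have h3 := h b h2 a h1
      have h4 : a ≤ b := Finset.min'_le _ _ (Finset.max'_mem _ _)
      rw [Int.card_Icc]
      have h5 : (((b + 1 - a).toNat : ℕ) : ℝ) = ((b - a : ℤ) : ℝ) + 1 := by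
        have : (((b + 1 - a).toNat : ℕ) : ℤ) = b + 1 - a := Int.toNat_of_nonneg (by omega)
        have h6 : (((b + 1 - a).toNat : ℕ) : ℝ) = (((b + 1 - a : ℤ)) : ℝ) := by exact_mod_cast this
        rw [h6]; push_cast; ring
      rw [h5]
      linarith

variable {κ : Type} (b τ : κ → ℝ)

/-- the contribution of the jump `p` at time `t` -/
noncomputable def J (p : κ) (t : ℝ) : ℝ := by
  classical
  exact if 0 < τ p ∧ τ p ≤ t then b p else 0

lemma J_abs_le (p : κ) {t T : ℝ} (h : t ≤ T) : |J b τ p t| ≤ |J b τ p T| := by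
  unfold J
  split_ifs with h1 h2 h2
  · exact le_rfl
  · exact absurd ⟨h1.1, h1.2.trans h⟩ h2
  · simp
  · simp

/-- The path with jumps `b p` at times `τ p` meets few cells of length `1 / k`. -/
theorem cells_upper (B : Finset κ) (hs : Summable fun p => |J b τ p 1|) (k : ℝ) (hk : 0 < k) :
    ∃ F : Finset ℤ, (∀ t ∈ Icc (0 : ℝ) 1, ⌊k * ∑' p, J b τ p t⌋ ∈ F) ∧
      (F.card : ℝ) ≤ 2 * (B.card + 1) + k * ∑' p, (Set.indicator {p | p ∉ B} (fun p => |J b τ p 1|) p) := by
  classical
  set key : ℝ → ℕ := fun t => (B.filter fun p => τ p ≤ t).card with hkey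
  have hkm : Monotone key := by
    intro s t hst
    refine Finset.card_le_card fun p hp => ?_
    rw [Finset.mem_filter] at hp ⊢
    exact ⟨hp.1, hp.2.trans hst⟩
  have hkB : ∀ t, key t ≤ B.card := fun t => Finset.card_filter_le _ _
  set d : ℕ → κ → ℝ := fun c p => if p ∉ B ∧ key (τ p) = c then |J b τ p 1| else 0 with hd
  have hds : ∀ c, Summable (d c) := by
    intro c
    refine Summable.of_nonneg_of_le (fun p => ?_) (fun p => ?_) hs
    · simp only [hd]; split_ifs <;> positivity
    · simp only [hd]; split_ifs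
      · exact le_rfl
      · positivity
  have hsum : ∀ t ∈ Icc (0 : ℝ) 1, Summable fun p => J b τ p t := by
    intro t ht
    refine Summable.of_norm (Summable.of_nonneg_of_le (fun p => norm_nonneg _) (fun p => ?_) hs)
    exact J_abs_le b τ p ht.2
  have hdiff : ∀ s ∈ Icc (0 : ℝ) 1, ∀ t ∈ Icc (0 : ℝ) 1, s ≤ t → key s = key t →
      |∑' p, J b τ p t - ∑' p, J b τ p s| ≤ ∑' p, d (key t) p := by
    intro s hs' t ht hst hk'
    rw [← (hsum t ht).tsum_sub (hsum s hs')]
    have hle : ∀ p, |J b τ p t - J b τ p s| ≤ d (key t) p := by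
      intro p
      have hd0 : 0 ≤ d (key t) p := by simp only [hd]; split_ifs <;> positivity
      by_cases h1 : 0 < τ p
      · by_cases h2 : τ p ≤ s
        · have h3 : τ p ≤ t := h2.trans hst
          simp only [J, h1, h2, h3, and_self, if_true, sub_self, abs_zero]
          exact hd0
        · by_cases h3 : τ p ≤ t
          · have h4 : p ∉ B := by
              intro hpB
              have : key s < key t := by
                apply Finset.card_lt_card
                rw [Finset.ssubset_iff_of_subset]
                · exact ⟨p, Finset.mem_filter.2 ⟨hpB, h3⟩, fun h => h2 (Finset.mem_filter.1 h).2⟩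
                · intro q hq
                  rw [Finset.mem_filter] at hq ⊢
                  exact ⟨hq.1, hq.2.trans hst⟩
              omega
            have h5 : key (τ p) = key t :=
              le_antisymm (hkm h3) (hk' ▸ hkm (not_le.1 h2).le)
            have h6 : τ p ≤ 1 := h3.trans ht.2
            simp only [hd, J, h1, h2, h3, h4, h5, h6, and_self, not_false_eq_true, if_true,
              and_false, if_false, sub_zero]
            exact le_rfl
          · simp only [J, h1, h2, h3, and_false, if_false, sub_self, abs_zero]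
            exact hd0
      · simp only [J, h1, false_and, if_false, sub_self, abs_zero]
        exact hd0
    calc |∑' p, (J b τ p t - J b τ p s)| ≤ ∑' p, |J b τ p t - J b τ p s| := by
          have := norm_tsum_le_tsum_norm (f := fun p => J b τ p t - J b τ p s)
            (Summable.of_nonneg_of_le (fun p => norm_nonneg _) hle (hds _))
          exact this
      _ ≤ ∑' p, d (key t) p :=
          Summable.tsum_le_tsum hle
            (Summable.of_nonneg_of_le (fun p => abs_nonneg _) hle (hds _)) (hds _)
  have hd0 : ∀ c, 0 ≤ ∑' p, d c p := fun c => tsum_nonneg fun p => by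
    simp only [hd]; split_ifs <;> positivity
  have hF : ∀ c : ℕ, ∃ F : Finset ℤ, (∀ t ∈ Icc (0 : ℝ) 1, key t = c → ⌊k * ∑' p, J b τ p t⌋ ∈ F) ∧
      (F.card : ℝ) ≤ k * ∑' p, d c p + 2 := by
    intro c
    obtain ⟨F, hF1, hF2⟩ := int_set_card {z | ∃ t ∈ Icc (0 : ℝ) 1, key t = c ∧
      ⌊k * ∑' p, J b τ p t⌋ = z} (k * ∑' p, d c p) (mul_nonneg hk.le (hd0 c)) (by
        rintro x ⟨t, ht, htc, rfl⟩ y ⟨s, hs', hsc, rfl⟩
        have h1 : |∑' p, J b τ p t - ∑' p, J b τ p s| ≤ ∑' p, d c p := by
          rcases le_total s t with h | h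
          · have := hdiff s hs' t ht h (hsc.trans htc.symm)
            rwa [htc] at this
          · have := hdiff t ht s hs' h (htc.trans hsc.symm)
            rwa [hsc, abs_sub_comm] at this
        have h2 := Int.floor_le (k * ∑' p, J b τ p t)
        have h3 := Int.lt_floor_add_one (k * ∑' p, J b τ p s)
        push_cast
        have h4 : k * ∑' p, J b τ p t - k * ∑' p, J b τ p s ≤ k * ∑' p, d c p := by
          rw [← mul_sub]
          exact mul_le_mul_of_nonneg_left ((le_abs_self _).trans h1) hk.le
        linarith)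
    exact ⟨F, fun t ht htc => hF1 _ ⟨t, ht, htc, rfl⟩, hF2⟩
  choose F hF1 hF2 using hF
  refine ⟨(Finset.range (B.card + 1)).biUnion F, fun t ht => ?_, ?_⟩
  · rw [Finset.mem_biUnion]
    exact ⟨key t, Finset.mem_range.2 (Nat.lt_succ_of_le (hkB t)), hF1 _ t ht rfl⟩
  · have h1 : (((Finset.range (B.card + 1)).biUnion F).card : ℝ) ≤
        ∑ c ∈ Finset.range (B.card + 1), ((F c).card : ℝ) := by
      exact_mod_cast Finset.card_biUnion_le
    have h2 : ∑ c ∈ Finset.range (B.card + 1), ((F c).card : ℝ) ≤
        ∑ c ∈ Finset.range (B.card + 1), (k * ∑' p, d c p + 2) :=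
      Finset.sum_le_sum fun c _ => hF2 c
    have h3 : ∑ c ∈ Finset.range (B.card + 1), (k * ∑' p, d c p + 2) =
        k * ∑' p, ∑ c ∈ Finset.range (B.card + 1), d c p + 2 * (B.card + 1) := by
      rw [Finset.sum_add_distrib, ← Finset.mul_sum, Summable.tsum_finsetSum fun c _ => hds c]
      simp
      ring
    have h4 : ∀ p, ∑ c ∈ Finset.range (B.card + 1), d c p =
        Set.indicator {p | p ∉ B} (fun p => |J b τ p 1|) p := by
      intro p
      by_cases hp : p ∈ B
      · rw [Set.indicator_of_notMem (by simpa using hp)]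
        apply Finset.sum_eq_zero
        intro c _
        simp [hd, hp]
      · rw [Set.indicator_of_mem (by simpa using hp)]
        rw [Finset.sum_eq_single (key (τ p))]
        · simp [hd, hp]
        · intro c _ hc
          simp only [hd]
          rw [if_neg]
          rintro ⟨_, h⟩
          exact hc h.symm
        · intro h
          exact absurd (Finset.mem_range.2 (Nat.lt_succ_of_le (hkB _))) h
    simp_rw [h4] at h3
    rw [h3] at h2
    linarith

end Pool.Agent.E8helper98.FG
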