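import Mathlib

set_option autoImplicit false

open MeasureTheory ProbabilityTheory Set Filter Topology Complex

namespace Pool.Agent.E8helper98.FG

/-- Parseval: the roles of the two measures can be exchanged. -/
lemma parseval (γ ρ : Measure ℝ) [IsProbabilityMeasure γ] [IsProbabilityMeasure ρ] :
    ∫ w, charFun γ w ∂ρ = ∫ z, charFun ρ z ∂γ := by
  simp_rw [charFun_apply_real]
  rw [integral_integral_swap]
  · refine integral_congr_ae (ae_of_all _ fun z => ?_)
    refine integral_congr_ae (ae_of_all _ fun w => ?_)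
    simp only
    congr 1
    ring
  · refine Integrable.of_bound (C := 1) ?_ (ae_of_all _ fun p => ?_)
    · exact (by fun_prop : Continuous (fun p : ℝ × ℝ => cexp (p.1 * p.2 * I))).aestronglyMeasurable
    · have : ((p.1 : ℂ) * (p.2 : ℂ) * I) = ((p.1 * p.2 : ℝ) : ℂ) * I := by push_cast; ring
      simp only [Function.uncurry]
      rw [this, Complex.norm_exp_ofReal_mul_I]

lemma integrable_gauss_rpow {s : ℝ} (hs0 : 0 < s) (hs : s < 1) :
    Integrable (fun z : ℝ => |z| ^ (-s)) (gaussianReal 0 1) := by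
  have h1 : IntegrableOn (fun z : ℝ => |z| ^ (-s)) (Icc (-1) 1) volume := by
    have h2 : IntegrableOn (fun z : ℝ => |z| ^ (-s)) (Ioc 0 1) volume := by
      have h3 : IntervalIntegrable (fun z : ℝ => z ^ (-s)) volume 0 1 :=
        intervalIntegral.intervalIntegrable_rpow' (by linarith)
      rw [intervalIntegrable_iff_integrableOn_Ioc_of_le zero_le_one] at h3
      refine h3.congr_fun (fun z hz => ?_) measurableSet_Ioc
      simp only
      rw [abs_of_pos hz.1]
    have h4 : IntegrableOn (fun z : ℝ => |z| ^ (-s)) (Ico (-1) 0) volume := by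
      have h5 := (integrableOn_Ioc_iff_integrableOn_Ioo enorm_ne_top).1 h2
      have h6 : IntegrableOn (fun z : ℝ => |z| ^ (-s)) (Ioo (-1) 0) volume := by
        have := (Measure.measurePreserving_neg (volume : Measure ℝ)).integrableOn_comp_preimage
          (Homeomorph.neg ℝ).measurableEmbedding (f := fun z : ℝ => |z| ^ (-s)) (s := Ioo 0 1)
        have h7 := this.2 h5
        simpa [Function.comp_def] using h7
      exact (integrableOn_Ico_iff_integrableOn_Ioo enorm_ne_top).2 h6
    have h8 : IntegrableOn (fun z : ℝ => |z| ^ (-s)) (Icc 0 1) volume :=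
      (integrableOn_Icc_iff_integrableOn_Ioc enorm_ne_top).2 h2
    have h9 := h4.union h8
    rwa [Ico_union_Icc_eq_Icc (by norm_num) (by norm_num)] at h9
  have hmeas : Measurable (fun z : ℝ => |z| ^ (-s)) := by fun_prop
  have hpdf : gaussianReal 0 1 = volume.withDensity (gaussianPDF 0 1) :=
    gaussianReal_of_var_ne_zero 0 one_ne_zero
  have hle : (gaussianReal 0 1).restrict (Icc (-1) 1) ≤ volume.restrict (Icc (-1) 1) := by
    refine Measure.restrict_mono_measure ?_ _ |>.trans le_rfl
    rw [hpdf]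
    calc volume.withDensity (gaussianPDF 0 1) ≤ volume.withDensity 1 := by
          refine withDensity_mono (ae_of_all _ fun z => ?_)
          rw [gaussianPDF, Pi.one_apply, ← ENNReal.ofReal_one]
          apply ENNReal.ofReal_le_ofReal
          rw [gaussianPDFReal]
          have h1 : Real.exp (-(z - 0) ^ 2 / (2 * ((1 : NNReal) : ℝ))) ≤ 1 := by
            apply Real.exp_le_one_iff.2
            have : 0 ≤ (z - 0) ^ 2 := sq_nonneg _
            simp only [NNReal.coe_one]
            linarith [this]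
          have h2 : (Real.sqrt (2 * Real.pi * ((1 : NNReal) : ℝ)))⁻¹ ≤ 1 := by
            apply inv_le_one_of_one_le₀
            rw [Real.one_le_sqrt]
            simp only [NNReal.coe_one]
            linarith [Real.pi_gt_three]
          calc _ ≤ 1 * 1 := mul_le_mul h2 h1 (Real.exp_pos _).le zero_le_one
            _ = 1 := one_mul _
      _ = volume := withDensity_one
  have hA : IntegrableOn (fun z : ℝ => |z| ^ (-s)) (Icc (-1) 1) (gaussianReal 0 1) :=
    Integrable.mono_measure h1 hle
  have hB : IntegrableOn (fun z : ℝ => |z| ^ (-s)) (Icc (-1) 1)ᶜ (gaussianReal 0 1) := by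
    refine Measure.integrableOn_of_bounded (M := 1) (measure_ne_top _ _) hmeas.aestronglyMeasurable ?_
    refine (ae_restrict_iff' measurableSet_Icc.compl).2 (ae_of_all _ fun z hz => ?_)
    have hz1 : 1 ≤ |z| := by
      by_contra h
      push Not at h
      exact hz (abs_le.1 h.le)
    rw [Real.norm_eq_abs, abs_of_nonneg (Real.rpow_nonneg (abs_nonneg _) _)]
    exact Real.rpow_le_one_of_one_le_of_nonpos hz1 (by linarith)
  have := hA.union hB
  rwa [union_compl_self, integrableOn_univ] at this


/-- A probability measure on the line whose Fourier transform decays like `|η| ^ (- s / 2)` charges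
at least `c k ^ s` of the cells of length `1 / k`. -/
theorem cells_lower {s : ℝ} (hs0 : 0 < s) (hs : s < 1) (ν : Measure ℝ) [IsProbabilityMeasure ν]
    (C : ℝ) (hC : ∀ η : ℝ, 1 ≤ |η| → ‖charFun ν η‖ ≤ C * |η| ^ (-s / 2)) :
    ∃ B : ℝ, ∀ k : ℝ, 0 < k → ∀ F : Finset ℤ, ν {x | ⌊k * x⌋ ∉ F} = 0 → k ^ s ≤ B * F.card := by
  set γ := gaussianReal 0 1 with hγ
  set D : ℝ := max 1 (C ^ 2) with hD
  set A : ℝ := ∫ z, |z| ^ (-s) ∂γ with hA
  refine ⟨Real.exp (1 / 2) * D * A, fun k hk F hF => ?_⟩
  -- the law of `k (x - y)`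
  set ρ : Measure ℝ := (ν.prod ν).map (fun p => k * (p.1 - p.2)) with hρ
  have hmk : Measurable (fun p : ℝ × ℝ => k * (p.1 - p.2)) := by fun_prop
  have : IsProbabilityMeasure ρ := Measure.isProbabilityMeasure_map hmk.aemeasurable
  have hch : ∀ z, charFun ρ z = charFun ν (k * z) * charFun ν (-(k * z)) := by
    intro z
    rw [charFun_apply_real, hρ, integral_map hmk.aemeasurable (by fun_prop), charFun_apply_real,
      charFun_apply_real, ← integral_prod_mul]
    refine integral_congr_ae (ae_of_all _ fun p => ?_)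
    simp only
    rw [← Complex.exp_add]
    congr 1
    push_cast
    ring
  have hcn : ∀ η, charFun ν (-η) = (starRingEnd ℂ) (charFun ν η) := fun η => charFun_neg η
  have hn : ∀ z, ‖charFun ρ z‖ = ‖charFun ν (k * z)‖ ^ 2 := by
    intro z
    rw [hch, hcn, norm_mul, RCLike.norm_conj, sq]
  have hdec : ∀ η : ℝ, η ≠ 0 → ‖charFun ν η‖ ^ 2 ≤ D * |η| ^ (-s) := by
    intro η hη
    have hp : 0 < |η| := abs_pos.2 hη
    rcases le_or_gt 1 |η| with h | h
    · have h1 := hC η h
      have h2 : ‖charFun ν η‖ ^ 2 ≤ (C * |η| ^ (-s / 2)) ^ 2 :=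
        pow_le_pow_left₀ (norm_nonneg _) h1 2
      have h3 : (C * |η| ^ (-s / 2)) ^ 2 = C ^ 2 * |η| ^ (-s) := by
        rw [mul_pow, ← Real.rpow_natCast (|η| ^ (-s / 2)), ← Real.rpow_mul hp.le]
        congr 2
        push_cast
        ring
      rw [h3] at h2
      exact h2.trans (mul_le_mul_of_nonneg_right (le_max_right _ _) (Real.rpow_nonneg hp.le _))
    · have h1 : ‖charFun ν η‖ ≤ 1 := norm_charFun_le_one η
      have h2 : (1 : ℝ) ≤ |η| ^ (-s) := by
        apply Real.one_le_rpow_of_pos_of_le_one_of_nonpos hp h.le (by linarith)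
      calc ‖charFun ν η‖ ^ 2 ≤ 1 := pow_le_one₀ (norm_nonneg _) h1
        _ ≤ 1 * |η| ^ (-s) := by linarith
        _ ≤ D * |η| ^ (-s) :=
          mul_le_mul_of_nonneg_right (le_max_left _ _) (Real.rpow_nonneg hp.le _)
  -- the energy
  have hE1 : ‖∫ w, charFun γ w ∂ρ‖ ≤ D * k ^ (-s) * A := by
    rw [parseval]
    refine (norm_integral_le_integral_norm _).trans ?_
    have hint : Integrable (fun z : ℝ => D * k ^ (-s) * |z| ^ (-s)) γ :=
      (integrable_gauss_rpow hs0 hs).const_mul _
    calc ∫ z, ‖charFun ρ z‖ ∂γ ≤ ∫ z, D * k ^ (-s) * |z| ^ (-s) ∂γ := by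
          refine integral_mono_of_nonneg (ae_of_all _ fun z => norm_nonneg _) hint ?_
          have h0 : ∀ᵐ z ∂γ, z ≠ 0 := by
            have : NullSingletonClass γ := nullSingletonClass_gaussianReal one_ne_zero
            have : γ {0} = 0 := measure_singleton 0
            exact compl_mem_ae_iff.2 this
          filter_upwards [h0] with z hz
          rw [hn]
          have := hdec (k * z) (mul_ne_zero hk.ne' hz)
          rw [abs_mul, abs_of_pos hk, Real.mul_rpow hk.le (abs_nonneg _)] at this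
          linarith
      _ = D * k ^ (-s) * A := by rw [integral_const_mul]
  have hE2 : ∫ w, charFun γ w ∂ρ =
      ((∫ p : ℝ × ℝ, Real.exp (-(k * (p.1 - p.2)) ^ 2 / 2) ∂(ν.prod ν) : ℝ) : ℂ) := by
    rw [hρ, integral_map hmk.aemeasurable (by fun_prop), ← integral_complex_ofReal]
    refine integral_congr_ae (ae_of_all _ fun p => ?_)
    simp only
    rw [hγ, charFun_gaussianReal]
    push_cast
    congr 1
    simp
    ring
  rw [hE2, Complex.norm_real] at hE1
  have hE3 := (le_abs_self _).trans hE1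
  -- lower bound
  set cell : ℤ → Set ℝ := fun z => {x | ⌊k * x⌋ = z} with hcell
  have hcm : ∀ z, MeasurableSet (cell z) := by
    intro z
    exact (Int.measurable_floor.comp (measurable_const_mul k)) (measurableSet_singleton z)
  have hdisj : Pairwise (Function.onFun Disjoint (fun z : ℤ => cell z ×ˢ cell z)) := by
    intro a b hab
    rw [Function.onFun, Set.disjoint_left]
    rintro p ⟨h1, _⟩ ⟨h2, _⟩
    exact hab (h1.symm.trans h2)
  have hsum1 : ∑ z ∈ F, ν.real (cell z) = 1 := by
    have h1 : ν.real (⋃ z ∈ F, cell z) = ∑ z ∈ F, ν.real (cell z) := by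
      rw [measureReal_biUnion_finset]
      · intro a _ b _ hab
        rw [Function.onFun, Set.disjoint_left]
        intro x h1 h2
        exact hab (h1.symm.trans h2)
      · exact fun z _ => hcm z
    rw [← h1]
    have h2 : (⋃ z ∈ F, cell z)ᶜ = {x | ⌊k * x⌋ ∉ F} := by
      ext x
      simp [hcell]
    have h3 : ν (⋃ z ∈ F, cell z)ᶜ = 0 := by rw [h2]; exact hF
    rw [measureReal_def, (prob_compl_eq_zero_iff (Finset.measurableSet_biUnion F fun z _ => hcm z)).1 h3]
    simp
  have hlow : Real.exp (-(1 / 2)) * ∑ z ∈ F, ν.real (cell z) ^ 2 ≤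
      ∫ p : ℝ × ℝ, Real.exp (-(k * (p.1 - p.2)) ^ 2 / 2) ∂(ν.prod ν) := by
    have hintg : Integrable (fun p : ℝ × ℝ => Real.exp (-(k * (p.1 - p.2)) ^ 2 / 2)) (ν.prod ν) := by
      refine Integrable.of_bound (C := 1) (by fun_prop) (ae_of_all _ fun p => ?_)
      rw [Real.norm_eq_abs, Real.abs_exp]
      apply Real.exp_le_one_iff.2
      have := sq_nonneg (k * (p.1 - p.2))
      linarith
    have h1 : Real.exp (-(1 / 2)) * ∑ z ∈ F, ν.real (cell z) ^ 2 =
        ∫ p in ⋃ z ∈ F, cell z ×ˢ cell z, Real.exp (-(1 / 2)) ∂(ν.prod ν) := by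
      rw [setIntegral_const, smul_eq_mul, mul_comm]
      congr 1
      rw [measureReal_biUnion_finset (fun a _ b _ hab => hdisj hab)
        (fun z _ => (hcm z).prod (hcm z))]
      refine Finset.sum_congr rfl fun z _ => ?_
      rw [measureReal_prod_prod, sq]
    rw [h1]
    calc _ ≤ ∫ p in ⋃ z ∈ F, cell z ×ˢ cell z, Real.exp (-(k * (p.1 - p.2)) ^ 2 / 2) ∂(ν.prod ν) := by
          refine setIntegral_mono_on (integrable_const _) hintg.integrableOn
            (Finset.measurableSet_biUnion F fun z _ => (hcm z).prod (hcm z)) fun p hp => ?_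
          simp only [mem_iUnion, mem_prod, hcell, mem_ofPred_eq] at hp
          obtain ⟨z, _, h1, h2⟩ := hp
          apply Real.exp_le_exp.2
          have h3 := Int.abs_sub_lt_one_of_floor_eq_floor (h1.trans h2.symm)
          rw [← mul_sub] at h3
          have h4 : (k * (p.1 - p.2)) ^ 2 ≤ 1 := by
            rw [← sq_abs]
            exact pow_le_one₀ (abs_nonneg _) h3.le
          linarith
      _ ≤ _ := setIntegral_le_integral hintg (ae_of_all _ fun p => (Real.exp_pos _).le)
  have hcs : 1 ≤ (F.card : ℝ) * ∑ z ∈ F, ν.real (cell z) ^ 2 := by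
    have := sq_sum_le_card_mul_sum_sq (s := F) (f := fun z => ν.real (cell z))
    rw [hsum1] at this
    linarith
  have hfin : 1 ≤ (F.card : ℝ) * (Real.exp (1 / 2) * (D * k ^ (-s) * A)) := by
    have h1 : ∑ z ∈ F, ν.real (cell z) ^ 2 ≤ Real.exp (1 / 2) * (D * k ^ (-s) * A) := by
      have h2 := hlow.trans hE3
      have h3 : Real.exp (1 / 2) * Real.exp (-(1 / 2)) = 1 := by
        rw [← Real.exp_add]; simp
      calc ∑ z ∈ F, ν.real (cell z) ^ 2 =
            Real.exp (1 / 2) * (Real.exp (-(1 / 2)) * ∑ z ∈ F, ν.real (cell z) ^ 2) := by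
            rw [← mul_assoc, h3, one_mul]
        _ ≤ _ := mul_le_mul_of_nonneg_left h2 (Real.exp_pos _).le
    exact hcs.trans (mul_le_mul_of_nonneg_left h1 (Nat.cast_nonneg _))
  have hks : k ^ s * k ^ (-s) = 1 := by
    rw [← Real.rpow_add hk]; simp
  have hkp : 0 < k ^ s := Real.rpow_pos_of_pos hk s
  calc k ^ s = k ^ s * 1 := (mul_one _).symm
    _ ≤ k ^ s * ((F.card : ℝ) * (Real.exp (1 / 2) * (D * k ^ (-s) * A))) :=
      mul_le_mul_of_nonneg_left hfin hkp.le
    _ = (k ^ s * k ^ (-s)) * (Real.exp (1 / 2) * D * A * F.card) := by ring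
    _ = _ := by rw [hks, one_mul]

end Pool.Agent.E8helper98.FG
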