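import Pool.Agent.E8helper98.FG.Poi

set_option autoImplicit false

open MeasureTheory ProbabilityTheory Set Filter Topology
open scoped ENNReal NNReal

namespace Pool.Agent.E8helper98.FG

/-- the value of `h` at the point with index `p`, zero if this point does not exist -/
noncomputable def val {β : Type} [Zero β] (h : Pt → β) (ω : Om) (p : Ix × ℕ) : β :=
  if p.2 < (ω p.1).1 then h ((ω p.1).2 p.2) else 0

lemma measurable_val {β : Type} [Zero β] [MeasurableSpace β] {h : Pt → β} (hh : Measurable h)
    (p : Ix × ℕ) : Measurable fun ω => val h ω p := by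
  unfold val
  refine Measurable.ite ?_ ?_ measurable_const
  · have : Measurable fun ω : Om => (ω p.1).1 := measurable_fst.comp (measurable_pi_apply p.1)
    exact this (measurableSet_lt measurable_const measurable_id : MeasurableSet {n : ℕ | p.2 < n})
  · have h1 : Measurable fun ω : Om => (ω p.1).2 p.2 :=
      (measurable_pi_apply p.2).comp (measurable_snd.comp (measurable_pi_apply p.1))
    exact hh.comp h1

/-- sum over all points -/
noncomputable def W (g : Pt → ℝ≥0∞) (ω : Om) : ℝ≥0∞ := ∑' p, val g ω p

lemma measurable_W {g : Pt → ℝ≥0∞} (hg : Measurable g) : Measurable (W g) :=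
  Measurable.ennreal_tsum fun p => measurable_val hg p

lemma W_eq (g : Pt → ℝ≥0∞) (ω : Om) :
    W g ω = ∑' i, ∑ j ∈ Finset.range (ω i).1, g ((ω i).2 j) := by
  unfold W
  rw [ENNReal.tsum_prod']
  congr 1
  ext i
  rw [tsum_eq_sum (s := Finset.range (ω i).1)]
  · refine Finset.sum_congr rfl fun j hj => ?_
    simp only [val]
    rw [if_pos (Finset.mem_range.1 hj)]
  · intro j hj
    simp only [val]
    rw [if_neg (fun h => hj (Finset.mem_range.2 h))]

/-- Campbell's formula -/
lemma lintegral_W {g : Pt → ℝ≥0∞} (hg : Measurable g) :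
    ∫⁻ ω, W g ω ∂PP = ∫⁻ x, g x := by
  simp_rw [W_eq]
  rw [lintegral_tsum]
  · have h1 : ∀ i : Ix, ∫⁻ ω : Om, ∑ j ∈ Finset.range (ω i).1, g ((ω i).2 j) ∂PP =
        ∫⁻ x in sq i, g x := by
      intro i
      have := (measurePreserving_eval_infinitePi nu i).lintegral_comp
        (f := fun c : Cell => ∑ j ∈ Finset.range c.1, g (c.2 j)) (measurable_sumRange hg)
      have h2 := this.trans (lintegral_cell i hg)
      exact h2
    simp_rw [h1]
    rw [← lintegral_iUnion measurableSet_sq sq_disjoint, iUnion_sq, Measure.restrict_univ]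
  · intro i
    exact ((measurable_sumRange hg).comp (measurable_pi_apply i)).aemeasurable

lemma ae_W_lt_top {g : Pt → ℝ≥0∞} (hg : Measurable g) (h : ∫⁻ x, g x ≠ ∞) :
    ∀ᵐ ω ∂PP, W g ω < ∞ :=
  ae_lt_top (measurable_W hg) (by rwa [lintegral_W hg])

/-- characteristic function of the sum over all points -/
lemma charFun_Z {h : Pt → ℝ} (hh : Measurable h)
    (hs : ∀ᵐ ω ∂PP, Summable fun p => val h ω p)
    (hi : Integrable fun x => Complex.exp ((h x : ℝ) * Complex.I) - 1) :
    ∫ ω, Complex.exp (((∑' p, val h ω p : ℝ) : ℂ) * Complex.I) ∂PP =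
      Complex.exp (∫ x, (Complex.exp ((h x : ℝ) * Complex.I) - 1)) := by
  -- partial sums
  have h1 : ∀ s : Finset Ix, ∫ ω : Om, Complex.exp (((∑ i ∈ s, S h (ω i) : ℝ) : ℂ) * Complex.I) ∂PP =
      Complex.exp (∑ i ∈ s, ∫ x in sq i, (Complex.exp ((h x : ℝ) * Complex.I) - 1)) := by
    intro s
    have h2 : ∀ ω : Om, Complex.exp (((∑ i ∈ s, S h (ω i) : ℝ) : ℂ) * Complex.I) =
        ∏ i ∈ s, Complex.exp (((S h (ω i) : ℝ) : ℂ) * Complex.I) := by
      intro ω
      rw [← Complex.exp_sum]
      congr 1
      push_cast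
      rw [Finset.sum_mul]
    rw [integral_congr_ae (ae_of_all _ h2)]
    have hS := measurable_S hh
    have h3 := integral_prod_infinitePi nu s (fun _ c => Complex.exp (((S h c : ℝ) : ℂ) * Complex.I))
      (fun _ => by fun_prop)
    refine h3.trans ?_
    rw [Complex.exp_sum]
    refine Finset.prod_congr rfl fun i _ => ?_
    exact charFun_cell i hh
  -- limit on the right
  have h2 : HasSum (fun i => ∫ x in sq i, (Complex.exp ((h x : ℝ) * Complex.I) - 1))
      (∫ x, (Complex.exp ((h x : ℝ) * Complex.I) - 1)) := by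
    have := hasSum_integral_iUnion (μ := volume) (f := fun x => Complex.exp ((h x : ℝ) * Complex.I) - 1)
      measurableSet_sq sq_disjoint (by rw [iUnion_sq]; exact hi.integrableOn)
    rwa [iUnion_sq, Measure.restrict_univ] at this
  have h3 : Tendsto (fun s : Finset Ix => Complex.exp (∑ i ∈ s,
      ∫ x in sq i, (Complex.exp ((h x : ℝ) * Complex.I) - 1))) atTop
      (𝓝 (Complex.exp (∫ x, (Complex.exp ((h x : ℝ) * Complex.I) - 1)))) :=
    (Complex.continuous_exp.tendsto _).comp h2
  -- limit on the left
  have h4 : Tendsto (fun s : Finset Ix => ∫ ω : Om,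
      Complex.exp (((∑ i ∈ s, S h (ω i) : ℝ) : ℂ) * Complex.I) ∂PP) atTop
      (𝓝 (∫ ω, Complex.exp (((∑' p, val h ω p : ℝ) : ℂ) * Complex.I) ∂PP)) := by
    refine tendsto_integral_filter_of_dominated_convergence (fun _ => 1) ?_ ?_
      (integrable_const _) ?_
    · refine Eventually.of_forall fun s => ?_
      have hS := measurable_S hh
      have : Measurable fun ω : Om => ∑ i ∈ s, S h (ω i) :=
        Finset.measurable_sum s fun i _ => hS.comp (measurable_pi_apply i)
      exact (by fun_prop : Measurable fun ω : Om =>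
        Complex.exp (((∑ i ∈ s, S h (ω i) : ℝ) : ℂ) * Complex.I)).aestronglyMeasurable
    · exact Eventually.of_forall fun s => ae_of_all _ fun ω => (Complex.norm_exp_ofReal_mul_I _).le
    · filter_upwards [hs] with ω hω
      have h5 : HasSum (fun i => S h (ω i)) (∑' p, val h ω p) := by
        refine hω.hasSum.prod_fiberwise fun i => ?_
        have : S h (ω i) = ∑ j ∈ Finset.range (ω i).1, val h ω (i, j) := by
          unfold S
          refine Finset.sum_congr rfl fun j hj => ?_
          simp only [val]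
          rw [if_pos (Finset.mem_range.1 hj)]
        rw [this]
        refine hasSum_sum_of_ne_finset_zero fun j hj => ?_
        simp only [val]
        rw [if_neg (fun h => hj (Finset.mem_range.2 h))]
      have h6 : Tendsto (fun s : Finset Ix => ((∑ i ∈ s, S h (ω i) : ℝ) : ℂ)) atTop
          (𝓝 (((∑' p, val h ω p : ℝ)) : ℂ)) :=
        (Complex.continuous_ofReal.tendsto _).comp h5
      exact (Complex.continuous_exp.tendsto _).comp (h6.mul_const _)
  refine tendsto_nhds_unique h4 ?_
  simp_rw [h1]
  exact h3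

end Pool.Agent.E8helper98.FG
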