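import Pool.Agent.E8helper98.FG.Proc

set_option autoImplicit false

open MeasureTheory ProbabilityTheory Set Filter Topology
open scoped ENNReal NNReal

namespace Pool.Agent.E8helper98.FG

lemma val_sum {ι : Type} (s : Finset ι) (f : ι → Pt → ℝ) (ω : Om) (p : Ix × ℕ) :
    val (fun x => ∑ l ∈ s, f l x) ω p = ∑ l ∈ s, val (f l) ω p := by
  unfold val
  split_ifs <;> simp

lemma val_mul (a : ℝ) (f : Pt → ℝ) (ω : Om) (p : Ix × ℕ) :
    val (fun x => a * f x) ω p = a * val f ω p := by
  unfold val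
  split_ifs <;> simp

lemma val_sub (f g : Pt → ℝ) (ω : Om) (p : Ix × ℕ) :
    val (fun x => f x - g x) ω p = val f ω p - val g ω p := by
  unfold val
  split_ifs <;> simp

/-- indicator function of the interval `(a, b]` with complex values -/
noncomputable def ind (a b u : ℝ) : ℂ := (Ioc a b).indicator 1 u

lemma hX_sub {s t : ℝ} (hs : 0 ≤ s) (hst : s ≤ t) (x : Pt) :
    hX t x - hX s x = if s < x.2 ∧ x.2 ≤ t then jmp cc x.1 else 0 := by
  unfold hX
  by_cases h1 : 0 < x.2
  · by_cases h2 : x.2 ≤ s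
    · have h3 := h2.trans hst
      simp only [h1, h2, h3, and_self, if_true, not_lt.2 h2, false_and, if_false, sub_self]
    · have h3 := not_le.1 h2
      simp only [h1, h2, h3, true_and, and_false, if_false, sub_zero]
  · have h2 : ¬ s < x.2 := fun h => h1 (lt_of_le_of_lt hs h)
    simp only [h1, h2, false_and, if_false, sub_self]

variable {n : ℕ} (t : Fin (n + 1) → ℝ) (ξ : Fin n → ℝ)

/-- the test function -/
noncomputable def HH (x : Pt) : ℝ :=
  ∑ l : Fin n, ξ l * (hX (t l.succ) x - hX (t l.castSucc) x)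

lemma measurable_HH : Measurable (HH t ξ) := by
  unfold HH
  exact Finset.measurable_sum _ fun l _ =>
    ((measurable_hX _).sub (measurable_hX _)).const_mul _

lemma val_HH (ω : Om) (p : Ix × ℕ) :
    val (HH t ξ) ω p = ∑ l : Fin n, ξ l * (val (hX (t l.succ)) ω p - val (hX (t l.castSucc)) ω p) := by
  unfold HH
  rw [val_sum]
  refine Finset.sum_congr rfl fun l _ => ?_
  rw [val_mul, val_sub]

lemma Good.summable_HH {ω : Om} (h : Good ω) : Summable fun p => val (HH t ξ) ω p := by
  simp_rw [val_HH]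
  exact summable_sum fun l _ => ((h.summable' _).sub (h.summable' _)).mul_left _

lemma Good.tsum_HH {ω : Om} (h : Good ω) : ∑' p, val (HH t ξ) ω p =
    ∑ l : Fin n, ξ l * (X (t l.succ) ω - X (t l.castSucc) ω) := by
  simp_rw [val_HH]
  rw [Summable.tsum_finsetSum fun l _ => ((h.summable' _).sub (h.summable' _)).mul_left _]
  refine Finset.sum_congr rfl fun l _ => ?_
  rw [tsum_mul_left, (h.summable' _).tsum_sub (h.summable' _)]
  rfl

lemma exp_HH (h0 : 0 ≤ t 0) (hm : Monotone t) (x : Pt) :
    Complex.exp ((HH t ξ x : ℝ) * Complex.I) - 1 =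
      ∑ l : Fin n, (Complex.exp (((ξ l * jmp cc x.1 : ℝ) : ℂ) * Complex.I) - 1) *
        ind (t l.castSucc) (t l.succ) x.2 := by
  have hpos : ∀ i, 0 ≤ t i := fun i => h0.trans (hm (Fin.zero_le _))
  have hH : HH t ξ x = ∑ l : Fin n,
      ξ l * (if t l.castSucc < x.2 ∧ x.2 ≤ t l.succ then jmp cc x.1 else 0) := by
    unfold HH
    refine Finset.sum_congr rfl fun l _ => ?_
    rw [hX_sub (hpos _) (hm (Fin.castSucc_lt_succ).le)]
  rw [hH]
  by_cases hex : ∃ l : Fin n, t l.castSucc < x.2 ∧ x.2 ≤ t l.succ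
  · obtain ⟨l, hl⟩ := hex
    have huniq : ∀ l' : Fin n, l' ≠ l → ¬ (t l'.castSucc < x.2 ∧ x.2 ≤ t l'.succ) := by
      intro l' hne hl'
      rcases lt_or_gt_of_ne hne with h | h
      · have h1 : l'.succ ≤ l.castSucc := by
          rw [Fin.le_def]
          simp only [Fin.val_succ, Fin.val_castSucc]
          exact h
        have h2 := hm h1
        linarith [hl'.2, hl.1]
      · have h1 : l.succ ≤ l'.castSucc := by
          rw [Fin.le_def]
          simp only [Fin.val_succ, Fin.val_castSucc]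
          exact h
        have h2 := hm h1
        linarith [hl'.1, hl.2]
    rw [Finset.sum_eq_single l, Finset.sum_eq_single l]
    · unfold ind
      rw [if_pos hl, indicator_of_mem (show x.2 ∈ Ioc _ _ from hl), Pi.one_apply, mul_one]
    · intro l' _ hne
      unfold ind
      rw [indicator_of_notMem (show x.2 ∉ Ioc _ _ from huniq l' hne), mul_zero]
    · intro h
      exact absurd (Finset.mem_univ _) h
    · intro l' _ hne
      rw [if_neg (huniq l' hne), mul_zero]
    · intro h
      exact absurd (Finset.mem_univ _) h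
  · push Not at hex
    have h1 : ∀ l : Fin n, ¬ (t l.castSucc < x.2 ∧ x.2 ≤ t l.succ) := fun l hl =>
      absurd hl.2 (not_le.2 (hex l hl.1))
    have h2 : ∑ l : Fin n,
      ξ l * (if t l.castSucc < x.2 ∧ x.2 ≤ t l.succ then jmp cc x.1 else 0) = 0 := by
      apply Finset.sum_eq_zero
      intro l _
      rw [if_neg (h1 l), mul_zero]
    have h3 : ∑ l : Fin n, (Complex.exp (((ξ l * jmp cc x.1 : ℝ) : ℂ) * Complex.I) - 1) *
        ind (t l.castSucc) (t l.succ) x.2 = 0 := by
      apply Finset.sum_eq_zero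
      intro l _
      unfold ind
      rw [indicator_of_notMem (show x.2 ∉ Ioc _ _ from h1 l), mul_zero]
    rw [h2, h3]
    simp

lemma integral_ind {a b : ℝ} (h : a ≤ b) : ∫ u, ind a b u = ((b - a : ℝ) : ℂ) := by
  unfold ind
  rw [integral_indicator measurableSet_Ioc]
  simp [measureReal_def, Real.volume_Ioc, ENNReal.toReal_ofReal (sub_nonneg.2 h)]

lemma integrable_ind (a b : ℝ) : Integrable (ind a b) := by
  have : ind a b = (Ioc a b).indicator 1 := rfl
  rw [this, integrable_indicator_iff measurableSet_Ioc]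
  exact integrableOn_const (by simp)

lemma integral_HH (h0 : 0 ≤ t 0) (hm : Monotone t) :
    Integrable (fun x : Pt => Complex.exp ((HH t ξ x : ℝ) * Complex.I) - 1) ∧
    ∫ x : Pt, (Complex.exp ((HH t ξ x : ℝ) * Complex.I) - 1) =
      ((∑ l : Fin n, (-(t l.succ - t l.castSucc) * |ξ l| ^ (1 / 2 : ℝ)) : ℝ) : ℂ) := by
  have hI : ∀ l : Fin n, Integrable (fun x : Pt =>
      (Complex.exp (((ξ l * jmp cc x.1 : ℝ) : ℂ) * Complex.I) - 1) *
        ind (t l.castSucc) (t l.succ) x.2) := by
    intro l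
    rw [Measure.volume_eq_prod]
    exact (integrable_exponent (ξ l)).mul_prod (integrable_ind _ _)
  simp_rw [exp_HH t ξ h0 hm]
  refine ⟨integrable_finsetSum _ fun l _ => hI l, ?_⟩
  rw [integral_finsetSum _ fun l _ => hI l, Complex.ofReal_sum]
  refine Finset.sum_congr rfl fun l _ => ?_
  have h1 := integral_prod_mul (μ := (volume : Measure ℝ)) (ν := (volume : Measure ℝ))
    (fun r : ℝ => Complex.exp (((ξ l * jmp cc r : ℝ) : ℂ) * Complex.I) - 1)
    (ind (t l.castSucc) (t l.succ))
  rw [← Measure.volume_eq_prod] at h1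
  refine h1.trans ?_
  rw [exponent, integral_ind (hm (Fin.castSucc_lt_succ).le)]
  push_cast
  ring

/-- the joint characteristic function of the increments -/
theorem joint (h0 : 0 ≤ t 0) (hm : Monotone t) :
    ∫ ω, Complex.exp (((∑ l : Fin n, ξ l * (X (t l.succ) ω - X (t l.castSucc) ω) : ℝ) : ℂ) *
      Complex.I) ∂PP =
      Complex.exp ((∑ l : Fin n, (-(t l.succ - t l.castSucc) * |ξ l| ^ (1 / 2 : ℝ)) : ℝ) : ℂ) := by
  have h1 := charFun_Z (measurable_HH t ξ) (by
    filter_upwards [ae_good] with ω hω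
    exact hω.summable_HH t ξ) (integral_HH t ξ h0 hm).1
  rw [(integral_HH t ξ h0 hm).2] at h1
  rw [← h1]
  refine integral_congr_ae ?_
  filter_upwards [ae_good] with ω hω
  rw [hω.tsum_HH]

/-- characteristic function of an increment -/
theorem single {s t : ℝ} (hs : 0 ≤ s) (hst : s ≤ t) (ξ : ℝ) :
    ∫ ω, Complex.exp (((ξ * (X t ω - X s ω) : ℝ) : ℂ) * Complex.I) ∂PP =
      ((Real.exp (-(t - s) * |ξ| ^ (1 / 2 : ℝ)) : ℝ) : ℂ) := by
  have h1 := joint (n := 1) ![s, t] (fun _ => ξ) hs (by
    intro i j hij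
    fin_cases i <;> fin_cases j <;> simp_all)
  simp only [Fin.sum_univ_one, Fin.succ_zero_eq_one, Fin.castSucc_zero, Matrix.cons_val_zero,
    Matrix.cons_val_one] at h1
  rw [h1, Complex.ofReal_exp]

theorem indep (h0 : 0 ≤ t 0) (hm : Monotone t) :
    iIndepFun (fun (i : Fin n) (ω : Om) => X (t i.succ) ω - X (t i.castSucc) ω) PP := by
  have hmeas : ∀ i : Fin n, Measurable fun ω : Om => X (t i.succ) ω - X (t i.castSucc) ω :=
    fun i => (measurable_X _).sub (measurable_X _)
  rw [iIndepFun_iff_charFun_pi fun i => (hmeas i).aemeasurable]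
  intro ξ
  rw [charFun_apply, integral_map]
  · have h1 := joint t (fun l => ξ l) h0 hm
    have h2 : ∀ ω : Om, (inner ℝ (WithLp.toLp 2 fun i : Fin n => X (t i.succ) ω - X (t i.castSucc) ω)
        ξ : ℝ) = ∑ l : Fin n, ξ l * (X (t l.succ) ω - X (t l.castSucc) ω) := by
      intro ω
      rw [PiLp.inner_apply]
      refine Finset.sum_congr rfl fun l _ => ?_
      simp
    simp_rw [h2]
    rw [h1, Complex.ofReal_sum, Complex.exp_sum]
    refine Finset.prod_congr rfl fun l _ => ?_
    rw [charFun_apply_real, integral_map (hmeas l).aemeasurable (by fun_prop)]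
    have h3 := single (s := t l.castSucc) (t := t l.succ) (h0.trans (hm (Fin.zero_le _)))
      (hm (Fin.castSucc_lt_succ).le) (ξ l)
    rw [← Complex.ofReal_exp, ← h3]
    refine integral_congr_ae (ae_of_all _ fun ω => ?_)
    simp only
    push_cast
    ring_nf
  · refine Measurable.aemeasurable ?_
    exact (WithLp.measurable_toLp 2 _).comp (measurable_pi_lambda _ hmeas)
  · exact (by fun_prop : Continuous fun x : EuclideanSpace ℝ (Fin n) =>
      Complex.exp (((inner ℝ x ξ : ℝ) : ℂ) * Complex.I)).aestronglyMeasurable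

end Pool.Agent.E8helper98.FG
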