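import Mathlib

set_option autoImplicit false

open MeasureTheory Set Filter Topology

namespace Pool.Agent.E8helper98.FG

/-- the jump attached to the point `r`: `c / r ^ 2` with the sign of `r` -/
noncomputable def jmp (c r : ℝ) : ℝ := if 0 < r then c / r ^ 2 else -(c / r ^ 2)

lemma jmp_eq (c r : ℝ) : jmp c r = c * jmp 1 r := by
  unfold jmp; split_ifs <;> ring

lemma abs_jmp {c : ℝ} (hc : 0 < c) (r : ℝ) : |jmp c r| = c / r ^ 2 := by
  unfold jmp
  split_ifs
  · rw [abs_of_nonneg (by positivity)]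
  · rw [abs_neg, abs_of_nonneg (by positivity)]

lemma measurable_jmp (c : ℝ) : Measurable (jmp c) := by
  unfold jmp
  refine Measurable.ite measurableSet_Ioi ?_ ?_ <;> fun_prop

lemma jmp_neg (c : ℝ) (r : ℝ) : jmp c (-r) = -jmp c r := by
  unfold jmp
  rcases lt_trichotomy r 0 with h | h | h
  · rw [if_pos (by linarith), if_neg (by linarith)]; simp
  · subst h; simp
  · rw [if_neg (by linarith), if_pos h]; simp

lemma jmp_scale {a : ℝ} (ha : 0 < a) (c r : ℝ) : jmp c (a * r) = jmp c r / a ^ 2 := by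
  unfold jmp
  by_cases h : 0 < r
  · rw [if_pos (mul_pos ha h), if_pos h]; field_simp
  · rw [if_neg (by intro h1; exact h (pos_of_mul_pos_right h1 ha.le)), if_neg h]
    by_cases hr : r = 0
    · subst hr; simp
    · field_simp

/-- the integrand -/
noncomputable def ff (x r : ℝ) : ℂ := Complex.exp (((x * jmp 1 r : ℝ) : ℂ) * Complex.I) - 1

lemma measurable_ff (x : ℝ) : Measurable (ff x) := by
  have := measurable_jmp 1
  unfold ff
  fun_prop

lemma norm_ff_le (x r : ℝ) : ‖ff x r‖ ≤ (4 + 2 * |x|) * (1 + r ^ 2)⁻¹ := by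
  have h1 : ‖ff x r‖ ≤ 2 := by
    unfold ff
    calc _ ≤ ‖Complex.exp (((x * jmp 1 r : ℝ) : ℂ) * Complex.I)‖ + ‖(1 : ℂ)‖ := norm_sub_le _ _
      _ = 2 := by rw [Complex.norm_exp_ofReal_mul_I]; norm_num
  have h2 : ‖ff x r‖ ≤ |x| * (1 / r ^ 2) := by
    unfold ff
    have := Real.norm_exp_I_mul_ofReal_sub_one_le (x := x * jmp 1 r)
    rw [mul_comm Complex.I] at this
    refine this.trans (le_of_eq ?_)
    rw [Real.norm_eq_abs, abs_mul, abs_jmp one_pos]
  rcases le_or_gt (r ^ 2) 1 with h | h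
  · refine h1.trans ?_
    rw [← div_eq_mul_inv, le_div_iff₀ (by positivity)]
    nlinarith [abs_nonneg x]
  · refine h2.trans ?_
    rw [← div_eq_mul_inv, mul_one_div, div_le_div_iff₀ (by positivity) (by positivity)]
    nlinarith [abs_nonneg x]

lemma integrable_ff (x : ℝ) : Integrable (ff x) :=
  Integrable.mono' (integrable_inv_one_add_sq.const_mul _) (measurable_ff x).aestronglyMeasurable
    (ae_of_all _ fun r => norm_ff_le x r)

/-- the characteristic exponent -/
noncomputable def Phi (x : ℝ) : ℂ := ∫ r, ff x r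

lemma ff_neg (x r : ℝ) : ff x (-r) = (starRingEnd ℂ) (ff x r) := by
  unfold ff
  rw [jmp_neg, map_sub, map_one, ← Complex.exp_conj, map_mul, Complex.conj_I, Complex.conj_ofReal]
  congr 2
  push_cast
  ring

lemma ff_neg' (x r : ℝ) : ff (-x) r = ff x (-r) := by
  unfold ff
  rw [jmp_neg]
  congr 4
  ring

lemma Phi_conj (x : ℝ) : (starRingEnd ℂ) (Phi x) = Phi x := by
  unfold Phi
  rw [← integral_conj]
  simp_rw [← ff_neg]
  exact integral_neg_eq_self (ff x) volume

lemma Phi_neg (x : ℝ) : Phi (-x) = Phi x := by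
  unfold Phi
  simp_rw [ff_neg']
  exact integral_neg_eq_self (ff x) volume

lemma Phi_pos {x : ℝ} (hx : 0 < x) : Phi x = (Real.sqrt x : ℝ) * Phi 1 := by
  have hs : 0 < Real.sqrt x := Real.sqrt_pos.2 hx
  have h1 := Measure.integral_comp_mul_left (ff x) (Real.sqrt x)
  have h2 : ∀ r, ff x (Real.sqrt x * r) = ff 1 r := by
    intro r
    unfold ff
    rw [jmp_scale hs, Real.sq_sqrt hx.le]
    congr 4
    field_simp
  simp_rw [h2] at h1
  unfold Phi
  rw [h1, abs_of_pos (inv_pos.2 hs), Complex.real_smul, ← mul_assoc, ← Complex.ofReal_mul,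
    mul_inv_cancel₀ hs.ne', Complex.ofReal_one, one_mul]

/-- minus the real part of the exponent at one -/
noncomputable def kap : ℝ := ∫ r, (1 - Real.cos (jmp 1 r))

lemma Phi_one : Phi 1 = -(kap : ℂ) := by
  have h1 : (Phi 1).im = 0 := by
    have := Phi_conj 1
    exact Complex.conj_eq_iff_im.1 this
  have h2 : (Phi 1).re = - kap := by
    unfold Phi kap
    have h3 := integral_re (μ := volume) (integrable_ff 1)
    simp only [RCLike.re_to_complex] at h3
    rw [← h3, ← integral_neg]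
    congr 1
    ext r
    unfold ff
    rw [Complex.sub_re, Complex.exp_ofReal_mul_I_re, Complex.one_re, one_mul]
    ring
  apply Complex.ext
  · simp [h2]
  · simp [h1]

lemma kap_pos : 0 < kap := by
  unfold kap
  have hint : Integrable fun r => 1 - Real.cos (jmp 1 r) := by
    have h := (integrable_ff 1).re.neg
    refine h.congr (ae_of_all _ fun r => ?_)
    simp only [Pi.neg_apply, RCLike.re_to_complex]
    unfold ff
    rw [Complex.sub_re, Complex.exp_ofReal_mul_I_re, Complex.one_re, one_mul]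
    ring
  rw [integral_pos_iff_support_of_nonneg (fun r => by
    simp only [Pi.zero_apply, sub_nonneg]; exact Real.cos_le_one _) hint]
  refine lt_of_lt_of_le ?_ (measure_mono (s := Ioo (1 : ℝ) 2) ?_)
  · rw [Real.volume_Ioo]; norm_num
  · intro r hr
    have h0 : 0 < r := by linarith [hr.1]
    have h1 : jmp 1 r = 1 / r ^ 2 := if_pos h0
    have h2 : 0 < 1 / r ^ 2 := by positivity
    have h3 : 1 / r ^ 2 ≤ 1 := by
      rw [div_le_one (by positivity)]
      nlinarith [hr.1]
    have h4 : Real.cos (1 / r ^ 2) < 1 := by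
      have := Real.cos_lt_cos_of_nonneg_of_le_pi (x := 0) (y := 1 / r ^ 2) le_rfl
        (by linarith [Real.pi_gt_three]) h2
      rwa [Real.cos_zero] at this
    rw [Function.mem_support, h1]
    linarith

/-- the normalising constant -/
noncomputable def cc : ℝ := (kap ^ 2)⁻¹

lemma cc_pos : 0 < cc := inv_pos.2 (pow_pos kap_pos 2)

/-- the characteristic exponent of the jumps `jmp cc` -/
theorem exponent (ξ : ℝ) :
    ∫ r, (Complex.exp (((ξ * jmp cc r : ℝ) : ℂ) * Complex.I) - 1) =
      ((-(|ξ| ^ (1 / 2 : ℝ)) : ℝ) : ℂ) := by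
  have h1 : (fun r => Complex.exp (((ξ * jmp cc r : ℝ) : ℂ) * Complex.I) - 1) = ff (cc * ξ) := by
    ext r
    unfold ff
    rw [jmp_eq cc]
    congr 4
    ring
  rw [h1]
  change Phi (cc * ξ) = _
  rw [← Real.sqrt_eq_rpow]
  have h2 : ∀ y : ℝ, 0 < y → Phi (cc * y) = ((-Real.sqrt y : ℝ) : ℂ) := by
    intro y hy
    rw [Phi_pos (mul_pos cc_pos hy), Phi_one, Real.sqrt_mul cc_pos.le]
    have : Real.sqrt cc = kap⁻¹ := by
      unfold cc
      rw [← inv_pow, Real.sqrt_sq (inv_pos.2 kap_pos).le]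
    rw [this]
    have hk : (kap : ℂ) ≠ 0 := by exact_mod_cast kap_pos.ne'
    push_cast
    field_simp
  rcases lt_trichotomy ξ 0 with h | h | h
  · have h3 := h2 (-ξ) (by linarith)
    rw [mul_neg, Phi_neg] at h3
    rw [h3, abs_of_neg h]
  · subst h
    unfold Phi ff
    simp
  · rw [h2 ξ h, abs_of_pos h]

lemma integrable_exponent (ξ : ℝ) :
    Integrable fun r => Complex.exp (((ξ * jmp cc r : ℝ) : ℂ) * Complex.I) - 1 := by
  have h1 : (fun r => Complex.exp (((ξ * jmp cc r : ℝ) : ℂ) * Complex.I) - 1) = ff (cc * ξ) := by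
    ext r
    unfold ff
    rw [jmp_eq cc]
    congr 4
    ring
  rw [h1]
  exact integrable_ff _

end Pool.Agent.E8helper98.FG
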