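import Mathlib

set_option autoImplicit false

open MeasureTheory ProbabilityTheory Set Filter Topology
open scoped ENNReal NNReal

namespace Pool.Agent.E8helper98.FG

/-- The integral of a product of functions of different coordinates. -/
lemma integral_prod_infinitePi {ι : Type} {E : ι → Type} [∀ i, MeasurableSpace (E i)]
    (μ : (i : ι) → Measure (E i)) [∀ i, IsProbabilityMeasure (μ i)] (s : Finset ι)
    (g : (i : ι) → E i → ℂ) (hg : ∀ i, Measurable (g i)) :
    ∫ x, ∏ i ∈ s, g i (x i) ∂(Measure.infinitePi μ) = ∏ i ∈ s, ∫ y, g i y ∂(μ i) := by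
  have h1 : ∀ x : (i : ι) → E i, ∏ i ∈ s, g i (x i) =
      (fun y : (i : s) → E i => ∏ i : s, g i (y i)) (s.restrict x) := by
    intro x
    simp only [Finset.restrict]
    rw [← Finset.prod_coe_sort]
  have hm : Measurable (fun y : (i : s) → E i => ∏ i : s, g i (y i)) :=
    Finset.measurable_prod _ fun i _ => (hg i).comp (measurable_pi_apply i)
  have h2 := integral_restrict_infinitePi (μ := μ) (s := s)
    (f := fun y : (i : s) → E i => ∏ i : s, g i (y i)) hm.aestronglyMeasurable
  rw [integral_congr_ae (ae_of_all _ h1)]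
  refine h2.trans ?_
  rw [integral_fintype_prod_eq_prod (fun (i : s) y => g i y),
    ← Finset.prod_coe_sort (s := s) (f := fun i => ∫ y, g i y ∂(μ i))]

lemma lintegral_natCast_poisson : ∫⁻ n : ℕ, (n : ℝ≥0∞) ∂(poissonMeasure 1) = 1 := by
  rw [lintegral_countable']
  have hs : ∀ n : ℕ, poissonMeasure 1 {n} = ENNReal.ofReal (Real.exp (-1) / (n.factorial : ℝ)) := by
    intro n
    rw [poissonMeasure_singleton]
    simp
  rw [tsum_eq_zero_add' ENNReal.summable]
  simp only [Nat.cast_zero, zero_mul, zero_add]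
  have h1 : ∀ n : ℕ, ((n + 1 : ℕ) : ℝ≥0∞) * poissonMeasure 1 {n + 1} = poissonMeasure 1 {n} := by
    intro n
    rw [hs, hs, ← ENNReal.ofReal_natCast (n + 1), ← ENNReal.ofReal_mul (by positivity)]
    congr 1
    rw [Nat.factorial_succ]
    push_cast
    have : (n.factorial : ℝ) ≠ 0 := by positivity
    field_simp
  simp_rw [h1]
  have h2 : ∑' n : ℕ, poissonMeasure 1 {n} = poissonMeasure 1 (⋃ n : ℕ, {n}) :=
    (measure_iUnion (fun a b hab => by simpa [Function.onFun] using hab) fun n => measurableSet_singleton n).symm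
  rw [h2]
  have : (⋃ n : ℕ, ({n} : Set ℕ)) = univ := by ext; simp
  rw [this, measure_univ]

/-- points of the plane: the first coordinate determines the size, the second is the time -/
abbrev Pt := ℝ × ℝ

/-- the number of points in a cell, and a sequence of points -/
abbrev Cell := ℕ × (ℕ → Pt)

/-- index set of the cells -/
abbrev Ix := ℤ × ℤ

/-- the probability space -/
abbrev Om := Ix → Cell

/-- the unit square with the given corner -/
def sq (i : Ix) : Set Pt := Ioc (i.1 : ℝ) (i.1 + 1) ×ˢ Ioc (i.2 : ℝ) (i.2 + 1)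

lemma measurableSet_sq (i : Ix) : MeasurableSet (sq i) := measurableSet_Ioc.prod measurableSet_Ioc

lemma iUnion_sq : ⋃ i, sq i = univ := by
  rw [eq_univ_iff_forall]
  intro p
  rw [mem_iUnion]
  refine ⟨(⌈p.1⌉ - 1, ⌈p.2⌉ - 1), ?_, ?_⟩
  · have h1 := Int.le_ceil p.1
    have h2 := Int.ceil_lt_add_one p.1
    constructor
    · push_cast; linarith
    · push_cast; linarith
  · have h1 := Int.le_ceil p.2
    have h2 := Int.ceil_lt_add_one p.2
    constructor
    · push_cast; linarith
    · push_cast; linarith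

lemma sq_disjoint : Pairwise (Function.onFun Disjoint sq) := by
  intro i j hij
  rw [Function.onFun, Set.disjoint_left]
  rintro p ⟨h1, h2⟩ ⟨h3, h4⟩
  apply hij
  have e1 : ⌈p.1⌉ = i.1 + 1 := by
    rw [Int.ceil_eq_iff]; push_cast; exact ⟨by linarith [h1.1], h1.2⟩
  have e2 : ⌈p.1⌉ = j.1 + 1 := by
    rw [Int.ceil_eq_iff]; push_cast; exact ⟨by linarith [h3.1], h3.2⟩
  have e3 : ⌈p.2⌉ = i.2 + 1 := by
    rw [Int.ceil_eq_iff]; push_cast; exact ⟨by linarith [h2.1], h2.2⟩
  have e4 : ⌈p.2⌉ = j.2 + 1 := by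
    rw [Int.ceil_eq_iff]; push_cast; exact ⟨by linarith [h4.1], h4.2⟩
  ext <;> omega

/-- Lebesgue measure on the cell -/
noncomputable def lam (i : Ix) : Measure Pt := volume.restrict (sq i)

instance (i : Ix) : IsProbabilityMeasure (lam i) := by
  constructor
  rw [lam, Measure.restrict_apply_univ, sq, Measure.volume_eq_prod, Measure.prod_prod,
    Real.volume_Ioc, Real.volume_Ioc]
  simp

/-- a Poisson number of uniform points in the cell -/
noncomputable def nu (i : Ix) : Measure Cell :=
  (poissonMeasure 1).prod (Measure.infinitePi fun _ : ℕ => lam i)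

instance (i : Ix) : IsProbabilityMeasure (nu i) := by unfold nu; infer_instance

/-- the Poisson point process with intensity Lebesgue measure on the plane -/
noncomputable def PP : Measure Om := Measure.infinitePi nu

instance : IsProbabilityMeasure PP := by unfold PP; infer_instance

/-- sum over the points of a cell -/
noncomputable def S (h : Pt → ℝ) (c : Cell) : ℝ := ∑ j ∈ Finset.range c.1, h (c.2 j)

lemma measurable_sumRange {β : Type} [AddCommMonoid β] [MeasurableSpace β] [MeasurableAdd₂ β]
    {h : Pt → β} (hh : Measurable h) :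
    Measurable (fun c : Cell => ∑ j ∈ Finset.range c.1, h (c.2 j)) := by
  refine measurable_from_prod_countable_right fun n => ?_
  exact Finset.measurable_sum (Finset.range n) fun j _ => hh.comp (measurable_pi_apply j)

lemma measurable_S {h : Pt → ℝ} (hh : Measurable h) : Measurable (S h) :=
  measurable_sumRange hh

/-- characteristic function of the sum over the points of a cell -/
lemma charFun_cell (i : Ix) {h : Pt → ℝ} (hh : Measurable h) :
    ∫ c, Complex.exp ((S h c : ℝ) * Complex.I) ∂(nu i) =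
      Complex.exp (∫ x, (Complex.exp ((h x : ℝ) * Complex.I) - 1) ∂(lam i)) := by
  have hb : ∀ c : Cell, ‖Complex.exp ((S h c : ℝ) * Complex.I)‖ = 1 := fun c =>
    Complex.norm_exp_ofReal_mul_I _
  have hm : Measurable fun c : Cell => Complex.exp ((S h c : ℝ) * Complex.I) := by
    have := measurable_S hh
    fun_prop
  have hint : Integrable (fun c : Cell => Complex.exp ((S h c : ℝ) * Complex.I)) (nu i) :=
    Integrable.of_bound (C := 1) hm.aestronglyMeasurable (ae_of_all _ fun c => (hb c).le)
  set φ : ℂ := ∫ x, Complex.exp ((h x : ℝ) * Complex.I) ∂(lam i) with hφ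
  have h0 : ∫ x, (Complex.exp ((h x : ℝ) * Complex.I) - 1) ∂(lam i) = φ - 1 := by
    rw [integral_sub _ (integrable_const _)]
    · simp [hφ]
    · refine Integrable.of_bound (C := 1) ?_ (ae_of_all _ fun c => ?_)
      · exact (by fun_prop : Measurable fun x => Complex.exp ((h x : ℝ) * Complex.I)).aestronglyMeasurable
      · exact (Complex.norm_exp_ofReal_mul_I _).le
  rw [h0, nu, integral_prod _ hint]
  have h1 : ∀ n : ℕ, ∫ y, Complex.exp ((S h (n, y) : ℝ) * Complex.I)
      ∂(Measure.infinitePi fun _ : ℕ => lam i) = φ ^ n := by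
    intro n
    have h2 : ∀ y : ℕ → Pt, Complex.exp ((S h (n, y) : ℝ) * Complex.I) =
        ∏ j ∈ Finset.range n, Complex.exp ((h (y j) : ℝ) * Complex.I) := by
      intro y
      rw [← Complex.exp_sum]
      congr 1
      rw [S]
      push_cast
      rw [Finset.sum_mul]
    simp_rw [h2]
    rw [integral_prod_infinitePi (fun _ : ℕ => lam i) (Finset.range n)
      (fun _ x => Complex.exp ((h x : ℝ) * Complex.I)) (fun _ => by fun_prop)]
    simp [hφ]
  simp_rw [h1]
  rw [integral_poissonMeasure]
  have h3 : ∀ n : ℕ, (Real.exp (-((1 : ℝ≥0) : ℝ)) * ((1 : ℝ≥0) : ℝ) ^ n / (n.factorial : ℝ)) • φ ^ n =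
      Complex.exp (-1) * (φ ^ n / n.factorial) := by
    intro n
    rw [Complex.real_smul]
    push_cast
    simp
    ring
  simp_rw [h3]
  rw [tsum_mul_left]
  have h4 : ∑' n : ℕ, φ ^ n / (n.factorial : ℂ) = Complex.exp φ := by
    rw [Complex.exp_eq_exp_ℂ, NormedSpace.exp_eq_tsum_div]
  rw [h4, ← Complex.exp_add]
  congr 1
  ring

/-- Campbell's formula in a cell -/
lemma lintegral_cell (i : Ix) {g : Pt → ℝ≥0∞} (hg : Measurable g) :
    ∫⁻ c : Cell, ∑ j ∈ Finset.range c.1, g (c.2 j) ∂(nu i) = ∫⁻ x, g x ∂(lam i) := by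
  rw [nu, lintegral_prod _ (measurable_sumRange hg).aemeasurable]
  have h1 : ∀ n : ℕ, ∫⁻ y : ℕ → Pt, ∑ j ∈ Finset.range n, g (y j)
      ∂(Measure.infinitePi fun _ : ℕ => lam i) = n * ∫⁻ x, g x ∂(lam i) := by
    intro n
    rw [lintegral_finsetSum (Finset.range n) (f := fun j (y : ℕ → Pt) => g (y j))
      fun j _ => hg.comp (measurable_pi_apply j)]
    have h2 : ∀ j : ℕ, ∫⁻ y : ℕ → Pt, g (y j) ∂(Measure.infinitePi fun _ : ℕ => lam i) =
        ∫⁻ x, g x ∂(lam i) := fun j =>
      (measurePreserving_eval_infinitePi (fun _ : ℕ => lam i) j).lintegral_comp hg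
    simp_rw [h2]
    simp
  simp_rw [h1]
  rw [lintegral_mul_const _ (by fun_prop), lintegral_natCast_poisson, one_mul]

end Pool.Agent.E8helper98.FG
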