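import Pool.Agent.E8helper98.FG.Glob
import Pool.Agent.E8helper98.FG.Jump
import Pool.Agent.E8helper98.FG.Cover

set_option autoImplicit false

open MeasureTheory ProbabilityTheory Set Filter Topology
open scoped ENNReal NNReal

namespace Pool.Agent.E8helper98.FG

/-- the contribution of a point to the process at time `t` -/
noncomputable def hX (t : ℝ) (x : Pt) : ℝ := if 0 < x.2 ∧ x.2 ≤ t then jmp cc x.1 else 0

lemma measurable_hX (t : ℝ) : Measurable (hX t) := by
  have h := measurable_jmp cc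
  unfold hX
  refine Measurable.ite ?_ (h.comp measurable_fst) measurable_const
  exact (measurableSet_lt measurable_const measurable_snd).inter
    (measurableSet_le measurable_snd measurable_const)

/-- the process -/
noncomputable def X (t : ℝ) (ω : Om) : ℝ := ∑' p, val (hX t) ω p

lemma measurable_X (t : ℝ) : Measurable (X t) :=
  Measurable.tsum fun p => measurable_val (measurable_hX t) p

lemma mabs : Measurable fun x : Pt => |x.1| := by fun_prop

/-- few large jumps -/
noncomputable def g1 (k T : ℝ) : Pt → ℝ≥0∞ :=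
  indicator {x : Pt | |x.1| ≤ k ∧ 0 < x.2 ∧ x.2 ≤ T} 1

/-- small jumps -/
noncomputable def g2 (k T : ℝ) : Pt → ℝ≥0∞ :=
  indicator {x : Pt | k < |x.1| ∧ 0 < x.2 ∧ x.2 ≤ T} (fun x => ENNReal.ofReal (cc / x.1 ^ 2))

lemma measurable_g1 (k T : ℝ) : Measurable (g1 k T) := by
  unfold g1
  refine measurable_one.indicator ?_
  refine (measurableSet_le mabs measurable_const).inter
    ((measurableSet_lt measurable_const measurable_snd).inter
      (measurableSet_le measurable_snd measurable_const))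

lemma measurable_g2 (k T : ℝ) : Measurable (g2 k T) := by
  unfold g2
  refine Measurable.indicator (by fun_prop) ?_
  refine (measurableSet_lt measurable_const mabs).inter
    ((measurableSet_lt measurable_const measurable_snd).inter
      (measurableSet_le measurable_snd measurable_const))

lemma lintegral_g1 {k T : ℝ} : ∫⁻ x, g1 k T x ≤ ENNReal.ofReal (2 * k) * ENNReal.ofReal T := by
  have h1 : ∫⁻ x, g1 k T x ≤ volume (Icc (-k) k ×ˢ Ioc 0 T) := by
    unfold g1
    rw [lintegral_indicator_one]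
    · refine measure_mono fun x hx => ?_
      exact ⟨abs_le.1 hx.1, hx.2⟩
    · refine (measurableSet_le mabs measurable_const).inter
        ((measurableSet_lt measurable_const measurable_snd).inter
          (measurableSet_le measurable_snd measurable_const))
  refine h1.trans ?_
  rw [Measure.volume_eq_prod, Measure.prod_prod, Real.volume_Icc, Real.volume_Ioc]
  apply le_of_eq
  congr 2
  · ring
  · ring

lemma integral_inv_sq {k : ℝ} (hk : 0 < k) :
    ∫ r : ℝ, (k ^ 2 + r ^ 2)⁻¹ = Real.pi / k := by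
  have h1 := Measure.integral_comp_mul_left (fun r : ℝ => (k ^ 2 + r ^ 2)⁻¹) k
  have h2 : ∀ r : ℝ, (k ^ 2 + (k * r) ^ 2)⁻¹ = (k ^ 2)⁻¹ * (1 + r ^ 2)⁻¹ := by
    intro r
    rw [← mul_inv]
    congr 1
    ring
  simp_rw [h2] at h1
  rw [integral_const_mul, integral_univ_inv_one_add_sq, abs_of_pos (inv_pos.2 hk), smul_eq_mul] at h1
  have h3 : ∫ r : ℝ, (k ^ 2 + r ^ 2)⁻¹ = k * (k⁻¹ * ∫ r : ℝ, (k ^ 2 + r ^ 2)⁻¹) := by
    rw [← mul_assoc, mul_inv_cancel₀ hk.ne', one_mul]
  rw [h3, ← h1]
  field_simp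

lemma integrable_inv_sq {k : ℝ} (hk : 0 < k) : Integrable fun r : ℝ => (k ^ 2 + r ^ 2)⁻¹ := by
  by_contra h
  have h1 := integral_undef h
  rw [integral_inv_sq hk] at h1
  have : 0 < Real.pi / k := by positivity
  linarith

lemma lintegral_g2 {k T : ℝ} (hk : 0 < k) :
    ∫⁻ x, g2 k T x ≤ ENNReal.ofReal (2 * cc * (Real.pi / k)) * ENNReal.ofReal T := by
  have hc := cc_pos
  have h1 : ∀ x : Pt, g2 k T x ≤ ENNReal.ofReal (2 * cc * (k ^ 2 + x.1 ^ 2)⁻¹) *
      indicator (Ioc 0 T) 1 x.2 := by
    intro x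
    unfold g2
    by_cases hx : x ∈ {x : Pt | k < |x.1| ∧ 0 < x.2 ∧ x.2 ≤ T}
    · rw [indicator_of_mem hx, indicator_of_mem (show x.2 ∈ Ioc 0 T from hx.2), Pi.one_apply, mul_one]
      apply ENNReal.ofReal_le_ofReal
      have h2 : k ^ 2 < x.1 ^ 2 := by
        rw [← sq_abs x.1]
        exact pow_lt_pow_left₀ hx.1 hk.le (by norm_num)
      have h3 : 0 < x.1 ^ 2 := lt_of_le_of_lt (sq_nonneg k) h2
      rw [← div_eq_mul_inv, div_le_div_iff₀ h3 (by positivity)]
      nlinarith
    · rw [indicator_of_notMem hx]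
      simp
  calc ∫⁻ x, g2 k T x ≤ ∫⁻ x : ℝ × ℝ, ENNReal.ofReal (2 * cc * (k ^ 2 + x.1 ^ 2)⁻¹) *
      indicator (Ioc 0 T) 1 x.2 := lintegral_mono h1
    _ = (∫⁻ r : ℝ, ENNReal.ofReal (2 * cc * (k ^ 2 + r ^ 2)⁻¹)) * ∫⁻ u : ℝ, indicator (Ioc 0 T) 1 u := by
        rw [Measure.volume_eq_prod]
        exact lintegral_prod_mul (f := fun r : ℝ => ENNReal.ofReal (2 * cc * (k ^ 2 + r ^ 2)⁻¹))
          (by fun_prop) (measurable_one.indicator measurableSet_Ioc).aemeasurable
    _ = _ := by
        rw [lintegral_indicator_one measurableSet_Ioc, Real.volume_Ioc, sub_zero,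
          ← ofReal_integral_eq_lintegral_ofReal ((integrable_inv_sq hk).const_mul _)
            (ae_of_all _ fun r => by positivity), integral_const_mul, integral_inv_sq hk]

/-- all the paths in this set are regular -/
def Good (ω : Om) : Prop := ∀ T : ℕ, Summable fun p => |val (hX T) ω p|

lemma summable_of_W {k T : ℝ} {ω : Om} (h1 : W (g1 k T) ω < ∞) (h2 : W (g2 k T) ω < ∞) :
    Summable fun p => |val (hX T) ω p| := by
  classical
  have hc := cc_pos
  have hfin : {p | 1 ≤ val (g1 k T) ω p}.Finite :=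
    ENNReal.finite_const_le_of_tsum_ne_top h1.ne one_ne_zero
  set A : Set (Ix × ℕ) := {p | 1 ≤ val (g1 k T) ω p} with hA
  have hs2 : Summable fun p => (val (g2 k T) ω p).toReal := ENNReal.summable_toReal h2.ne
  have h3 : (fun p => |val (hX T) ω p|) =
      fun p => indicator A (fun p => |val (hX T) ω p|) p +
        indicator Aᶜ (fun p => |val (hX T) ω p|) p := by
    ext p
    by_cases hp : p ∈ A
    · rw [indicator_of_mem hp, indicator_of_notMem (by simpa using hp), add_zero]
    · rw [indicator_of_notMem hp, indicator_of_mem (by simpa using hp), zero_add]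
  rw [h3]
  refine Summable.add ?_ ?_
  · refine summable_of_hasFiniteSupport (hfin.subset ?_)
    exact support_indicator_subset
  · refine Summable.of_nonneg_of_le (fun p => indicator_nonneg (fun _ _ => abs_nonneg _) _)
      (fun p => ?_) hs2
    by_cases hp : p ∈ A
    · rw [indicator_of_notMem (by simpa using hp)]
      exact ENNReal.toReal_nonneg
    · rw [indicator_of_mem (by simpa using hp)]
      have h4 : ¬ 1 ≤ val (g1 k T) ω p := hp
      unfold val at h4 ⊢
      by_cases h5 : p.2 < (ω p.1).1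
      · rw [if_pos h5] at h4 ⊢
        rw [if_pos h5]
        set x := (ω p.1).2 p.2 with hx
        unfold hX
        by_cases h6 : 0 < x.2 ∧ x.2 ≤ T
        · rw [if_pos h6, abs_jmp hc]
          have h7 : ¬ |x.1| ≤ k := by
            intro h7
            apply h4
            unfold g1
            rw [indicator_of_mem (show x ∈ {x : Pt | |x.1| ≤ k ∧ 0 < x.2 ∧ x.2 ≤ T} from ⟨h7, h6⟩)]
            exact le_rfl
          unfold g2
          rw [indicator_of_mem (show x ∈ {x : Pt | k < |x.1| ∧ 0 < x.2 ∧ x.2 ≤ T} from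
            ⟨not_le.1 h7, h6⟩), ENNReal.toReal_ofReal (by positivity)]
        · rw [if_neg h6, abs_zero]
          exact ENNReal.toReal_nonneg
      · rw [if_neg h5, if_neg h5]
        simp

lemma ae_good : ∀ᵐ ω ∂PP, Good ω := by
  rw [show (fun ω => Good ω) = fun ω => ∀ T : ℕ, Summable fun p => |val (hX T) ω p| from rfl]
  rw [ae_all_iff]
  intro T
  have h1 := ae_W_lt_top (measurable_g1 1 T) (ne_top_of_le_ne_top
    (ENNReal.mul_ne_top ENNReal.ofReal_ne_top ENNReal.ofReal_ne_top) lintegral_g1)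
  have h2 := ae_W_lt_top (measurable_g2 1 T) (ne_top_of_le_ne_top
    (ENNReal.mul_ne_top ENNReal.ofReal_ne_top ENNReal.ofReal_ne_top) (lintegral_g2 one_pos))
  filter_upwards [h1, h2] with ω h1 h2
  exact summable_of_W h1 h2

lemma abs_hX_le {s t : ℝ} (h : s ≤ t) (x : Pt) : |hX s x| ≤ |hX t x| := by
  unfold hX
  split_ifs with h1 h2 h2
  · exact le_rfl
  · exact absurd ⟨h1.1, h1.2.trans h⟩ h2
  · simp
  · simp

lemma abs_val_le {s t : ℝ} (h : s ≤ t) (ω : Om) (p : Ix × ℕ) :
    |val (hX s) ω p| ≤ |val (hX t) ω p| := by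
  unfold val
  split_ifs
  · exact abs_hX_le h _
  · simp

lemma Good.summable {ω : Om} (h : Good ω) (t : ℝ) : Summable fun p => |val (hX t) ω p| := by
  obtain ⟨T, hT⟩ := exists_nat_ge t
  exact Summable.of_nonneg_of_le (fun p => abs_nonneg _) (fun p => abs_val_le hT ω p) (h T)

lemma Good.summable' {ω : Om} (h : Good ω) (t : ℝ) : Summable fun p => val (hX t) ω p :=
  summable_abs_iff.1 (h.summable t)

lemma X_zero (ω : Om) : X 0 ω = 0 := by
  unfold X
  have : ∀ p, val (hX 0) ω p = 0 := by
    intro p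
    unfold val hX
    split_ifs with h1 h2
    · linarith [h2.1, h2.2]
    · rfl
    · rfl
  simp [this]

lemma Good.right {ω : Om} (h : Good ω) (t : ℝ) :
    ContinuousWithinAt (fun s => X s ω) (Ici t) t := by
  unfold ContinuousWithinAt X
  refine tendsto_tsum_of_dominated_convergence (h.summable (t + 1)) ?_ ?_
  · intro p
    -- eventually constant
    refine tendsto_const_nhds.congr' ?_
    by_cases h1 : ((ω p.1).2 p.2).2 ≤ t
    · filter_upwards [self_mem_nhdsWithin] with s hs
      unfold val hX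
      have h2 : ((ω p.1).2 p.2).2 ≤ s := h1.trans hs
      simp only [h1, h2, and_true]
    · have h2 : ∀ᶠ s in 𝓝[Ici t] t, s < ((ω p.1).2 p.2).2 :=
        nhdsWithin_le_nhds (Iio_mem_nhds (not_le.1 h1))
      filter_upwards [h2] with s hs
      unfold val hX
      have h3 : ¬ ((ω p.1).2 p.2).2 ≤ s := not_le.2 hs
      simp only [h1, h3, and_false, if_false]
  · have h2 : ∀ᶠ s in 𝓝[Ici t] t, s < t + 1 :=
      nhdsWithin_le_nhds (Iio_mem_nhds (by linarith))
    filter_upwards [h2] with s hs p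
    exact abs_val_le hs.le ω p

lemma Good.left {ω : Om} (h : Good ω) (t : ℝ) :
    ∃ l : ℝ, Tendsto (fun s => X s ω) (𝓝[<] t) (𝓝 l) := by
  refine ⟨∑' p, val (fun x : Pt => if 0 < x.2 ∧ x.2 < t then jmp cc x.1 else 0) ω p, ?_⟩
  unfold X
  refine tendsto_tsum_of_dominated_convergence (h.summable t) ?_ ?_
  · intro p
    refine tendsto_const_nhds.congr' ?_
    by_cases h1 : ((ω p.1).2 p.2).2 < t
    · have h2 : ∀ᶠ s in 𝓝[<] t, ((ω p.1).2 p.2).2 < s :=
        nhdsWithin_le_nhds (Ioi_mem_nhds h1)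
      filter_upwards [h2] with s hs
      unfold val hX
      simp only [h1, hs.le, and_true]
    · filter_upwards [self_mem_nhdsWithin] with s hs
      unfold val hX
      have h3 : ¬ ((ω p.1).2 p.2).2 ≤ s := not_le.2 (lt_of_lt_of_le hs (not_lt.1 h1))
      simp only [h1, h3, and_false, if_false]
  · filter_upwards [self_mem_nhdsWithin] with s hs p
    exact abs_val_le (le_of_lt hs) ω p

end Pool.Agent.E8helper98.FG
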