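import Pool.Agent.E8helper98.FG.Joint
import Pool.Agent.E8helper98.FG.Energy

set_option autoImplicit false

open MeasureTheory ProbabilityTheory Set Filter Topology
open scoped ENNReal NNReal

namespace Pool.Agent.E8helper98.FG

lemma val_le_g2 {k T : ℝ} {ω : Om} {p : Ix × ℕ} (hp : ¬ 1 ≤ val (g1 k T) ω p) :
    |val (hX T) ω p| ≤ (val (g2 k T) ω p).toReal := by
  have hc := cc_pos
  unfold val at hp ⊢
  by_cases h5 : p.2 < (ω p.1).1
  · rw [if_pos h5] at hp ⊢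
    rw [if_pos h5]
    set x := (ω p.1).2 p.2 with hx
    unfold hX
    by_cases h6 : 0 < x.2 ∧ x.2 ≤ T
    · rw [if_pos h6, abs_jmp hc]
      have h7 : ¬ |x.1| ≤ k := by
        intro h7
        apply hp
        unfold g1
        rw [indicator_of_mem (show x ∈ {x : Pt | |x.1| ≤ k ∧ 0 < x.2 ∧ x.2 ≤ T} from ⟨h7, h6⟩)]
        exact le_rfl
      unfold g2
      rw [indicator_of_mem (show x ∈ {x : Pt | k < |x.1| ∧ 0 < x.2 ∧ x.2 ≤ T} from
        ⟨not_le.1 h7, h6⟩), ENNReal.toReal_ofReal (by positivity)]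
    · rw [if_neg h6, abs_zero]
      exact ENNReal.toReal_nonneg
  · rw [if_neg h5, if_neg h5]
    simp

/-- a bound for the number of cells of length `1 / k ^ 2` which are met by the path -/
noncomputable def Q (k : ℕ) (ω : Om) : ℝ≥0∞ :=
  2 * (W (g1 k 1) ω + 1) + (k : ℝ≥0∞) ^ 2 * W (g2 k 1) ω

lemma measurable_Q (k : ℕ) : Measurable (Q k) := by
  have h1 := measurable_W (measurable_g1 k 1)
  have h2 := measurable_W (measurable_g2 k 1)
  unfold Q
  fun_prop

lemma range_cells {ω : Om} (hω : Good ω) (k : ℕ) (hk : 1 ≤ k) (h1 : W (g1 k 1) ω < ∞)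
    (h2 : W (g2 k 1) ω < ∞) :
    ∃ F : Finset ℤ, (∀ t ∈ Icc (0 : ℝ) 1, ⌊(k : ℝ) ^ 2 * X t ω⌋ ∈ F) ∧
      (F.card : ℝ≥0∞) ≤ Q k ω := by
  classical
  set b : Ix × ℕ → ℝ := fun p => val (fun x => jmp cc x.1) ω p with hb
  set τ : Ix × ℕ → ℝ := fun p => ((ω p.1).2 p.2).2 with hτ
  have hJ : ∀ t p, J b τ p t = val (hX t) ω p := by
    intro t p
    unfold J
    simp only [hb, hτ]
    unfold val hX
    split_ifs <;> rfl
  have hfin : {p | 1 ≤ val (g1 k 1) ω p}.Finite :=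
    ENNReal.finite_const_le_of_tsum_ne_top h1.ne one_ne_zero
  set B : Finset (Ix × ℕ) := hfin.toFinset with hB
  have hk0 : (0 : ℝ) < (k : ℝ) ^ 2 := by
    have : (0 : ℝ) < k := by exact_mod_cast hk
    positivity
  obtain ⟨F, hF1, hF2⟩ := cells_upper b τ B (by
    simp_rw [hJ]; exact hω.summable 1) ((k : ℝ) ^ 2) hk0
  refine ⟨F, fun t ht => ?_, ?_⟩
  · have := hF1 t ht
    simp_rw [hJ] at this
    exact this
  · have hs2 : Summable fun p => (val (g2 k 1) ω p).toReal := ENNReal.summable_toReal h2.ne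
    have h3 : ∀ p, indicator {p | p ∉ B} (fun p => |J b τ p 1|) p ≤ (val (g2 k 1) ω p).toReal := by
      intro p
      by_cases hp : p ∈ B
      · rw [indicator_of_notMem (by simpa using hp)]
        exact ENNReal.toReal_nonneg
      · rw [indicator_of_mem (by simpa using hp), hJ]
        exact val_le_g2 (by simpa [hB] using hp)
    have h4 : ∑' p, indicator {p | p ∉ B} (fun p => |J b τ p 1|) p ≤ (W (g2 k 1) ω).toReal := by
      have h5 : (W (g2 k 1) ω).toReal = ∑' p, (val (g2 k 1) ω p).toReal := by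
        unfold W
        exact ENNReal.tsum_toReal_eq (fun p => ne_top_of_le_ne_top h2.ne (ENNReal.le_tsum p))
      rw [h5]
      refine Summable.tsum_le_tsum h3 ?_ hs2
      exact Summable.of_nonneg_of_le (fun p => indicator_nonneg (fun _ _ => abs_nonneg _) _) h3 hs2
    have h5 : (B.card : ℝ≥0∞) ≤ W (g1 k 1) ω := by
      calc (B.card : ℝ≥0∞) = ∑ p ∈ B, 1 := by simp
        _ ≤ ∑ p ∈ B, val (g1 k 1) ω p := Finset.sum_le_sum fun p hp => by
            simpa [hB] using hp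
        _ ≤ W (g1 k 1) ω := ENNReal.sum_le_tsum B
    have h6 : (B.card : ℝ) ≤ (W (g1 k 1) ω).toReal := by
      have := ENNReal.toReal_mono h1.ne h5
      simpa using this
    have h7 : (F.card : ℝ) ≤ 2 * ((W (g1 k 1) ω).toReal + 1) + (k : ℝ) ^ 2 * (W (g2 k 1) ω).toReal := by
      refine hF2.trans ?_
      have := mul_le_mul_of_nonneg_left h4 hk0.le
      linarith
    have h8 : Q k ω = ENNReal.ofReal (2 * ((W (g1 k 1) ω).toReal + 1) +
        (k : ℝ) ^ 2 * (W (g2 k 1) ω).toReal) := by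
      unfold Q
      rw [ENNReal.ofReal_add (by positivity) (by positivity), ENNReal.ofReal_mul (by norm_num),
        ENNReal.ofReal_add ENNReal.toReal_nonneg zero_le_one, ENNReal.ofReal_toReal h1.ne,
        ENNReal.ofReal_mul hk0.le, ENNReal.ofReal_toReal h2.ne, ENNReal.ofReal_pow (by positivity)]
      simp
    rw [h8]
    rw [← ENNReal.ofReal_natCast]
    exact ENNReal.ofReal_le_ofReal h7

/-- the constant in the expectation of `Q` -/
noncomputable def MM : ℝ := 6 + 2 * cc * Real.pi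

lemma lintegral_Q (k : ℕ) (hk : 1 ≤ k) : ∫⁻ ω, Q k ω ∂PP ≤ ENNReal.ofReal (MM * k) := by
  have hc := cc_pos
  have hk0 : (0 : ℝ) < k := by exact_mod_cast hk
  have hk1 : (1 : ℝ) ≤ k := by exact_mod_cast hk
  have m1 := measurable_W (measurable_g1 k 1)
  have m2 := measurable_W (measurable_g2 k 1)
  unfold Q
  rw [lintegral_add_left (by fun_prop), lintegral_const_mul _ (by fun_prop),
    lintegral_add_left m1, lintegral_const_mul _ m2, lintegral_W (measurable_g1 _ _),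
    lintegral_W (measurable_g2 _ _), lintegral_one, measure_univ]
  have h1 : ∫⁻ x, g1 k 1 x ≤ ENNReal.ofReal (2 * k) := by
    refine lintegral_g1.trans ?_
    simp
  have h2 : ∫⁻ x, g2 k 1 x ≤ ENNReal.ofReal (2 * cc * (Real.pi / k)) := by
    refine (lintegral_g2 hk0).trans ?_
    simp
  calc 2 * ((∫⁻ x, g1 k 1 x) + 1) + (k : ℝ≥0∞) ^ 2 * ∫⁻ x, g2 k 1 x
      ≤ 2 * (ENNReal.ofReal (2 * k) + 1) + (k : ℝ≥0∞) ^ 2 * ENNReal.ofReal (2 * cc * (Real.pi / k)) := by
        gcongr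
    _ = ENNReal.ofReal (2 * (2 * k + 1) + (k : ℝ) ^ 2 * (2 * cc * (Real.pi / k))) := by
        rw [ENNReal.ofReal_add (by positivity) (by positivity),
          ENNReal.ofReal_mul (p := 2) (q := 2 * (k : ℝ) + 1) (by norm_num),
          ENNReal.ofReal_add (p := 2 * (k : ℝ)) (by positivity) zero_le_one,
          ENNReal.ofReal_mul (p := (k : ℝ) ^ 2) (by positivity), ENNReal.ofReal_pow (by positivity)]
        simp
    _ ≤ ENNReal.ofReal (MM * k) := by
        apply ENNReal.ofReal_le_ofReal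
        unfold MM
        have : (k : ℝ) ^ 2 * (2 * cc * (Real.pi / k)) = 2 * cc * Real.pi * k := by
          field_simp
        rw [this]
        nlinarith

/-- the normalised bound has lower limit zero -/
lemma liminf_Q : ∀ᵐ ω ∂PP, liminf (fun k : ℕ => Q (k + 1) ω *
    ENNReal.ofReal ((((k + 1 : ℕ) : ℝ) ^ 2) ^ (-(3 / 4) : ℝ))) atTop = 0 := by
  have hmeas : ∀ k : ℕ, Measurable fun ω => Q (k + 1) ω *
      ENNReal.ofReal ((((k + 1 : ℕ) : ℝ) ^ 2) ^ (-(3 / 4) : ℝ)) := fun k =>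
    (measurable_Q _).mul_const _
  have h1 : ∫⁻ ω, liminf (fun k : ℕ => Q (k + 1) ω *
      ENNReal.ofReal ((((k + 1 : ℕ) : ℝ) ^ 2) ^ (-(3 / 4) : ℝ))) atTop ∂PP = 0 := by
    refine le_antisymm ((lintegral_liminf_le hmeas).trans ?_) bot_le
    have h2 : ∀ k : ℕ, ∫⁻ ω, Q (k + 1) ω *
        ENNReal.ofReal ((((k + 1 : ℕ) : ℝ) ^ 2) ^ (-(3 / 4) : ℝ)) ∂PP ≤
        ENNReal.ofReal (MM * ((k : ℝ) + 1) ^ (-(1 / 2) : ℝ)) := by
      intro k
      have hk : (0 : ℝ) < (k : ℝ) + 1 := by positivity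
      rw [lintegral_mul_const _ (measurable_Q _)]
      refine (mul_le_mul_left (lintegral_Q (k + 1) (by omega)) _).trans ?_
      rw [← ENNReal.ofReal_mul (by
        have := cc_pos
        unfold MM
        positivity)]
      apply ENNReal.ofReal_le_ofReal
      push_cast
      have h3 : ((((k : ℝ) + 1) ^ 2) ^ (-(3 / 4) : ℝ)) = ((k : ℝ) + 1) ^ (-(3 / 2) : ℝ) := by
        rw [← Real.rpow_natCast, ← Real.rpow_mul hk.le]
        congr 1
        norm_num
      rw [h3, mul_assoc]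
      apply le_of_eq
      congr 1
      nth_rewrite 1 [← Real.rpow_one ((k : ℝ) + 1)]
      rw [← Real.rpow_add hk]
      congr 1
      norm_num
    have h4 : Tendsto (fun k : ℕ => ENNReal.ofReal (MM * ((k : ℝ) + 1) ^ (-(1 / 2) : ℝ))) atTop (𝓝 0) := by
      rw [← ENNReal.ofReal_zero]
      refine ENNReal.tendsto_ofReal ?_
      rw [← mul_zero MM]
      refine Tendsto.const_mul _ ?_
      have h5 := tendsto_rpow_neg_atTop (y := 1 / 2) (by norm_num)
      exact h5.comp (tendsto_atTop_add_const_right _ _ tendsto_natCast_atTop_atTop)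
    calc liminf (fun k : ℕ => ∫⁻ ω, Q (k + 1) ω *
        ENNReal.ofReal ((((k + 1 : ℕ) : ℝ) ^ 2) ^ (-(3 / 4) : ℝ)) ∂PP) atTop ≤
        liminf (fun k : ℕ => ENNReal.ofReal (MM * ((k : ℝ) + 1) ^ (-(1 / 2) : ℝ))) atTop :=
          liminf_le_liminf (Eventually.of_forall h2)
      _ = 0 := h4.liminf_eq
  have h6 := (lintegral_eq_zero_iff (Measurable.liminf hmeas)).1 h1
  filter_upwards [h6] with ω hω
  exact hω

/-- Almost surely no probability measure on the graph has Fourier decay of order `3 / 8`. -/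
theorem no_measure : ∀ᵐ ω ∂PP, ¬ ∃ (μ : Measure (ℝ × ℝ)) (K : Set (ℝ × ℝ)),
    IsProbabilityMeasure μ ∧ IsCompact K ∧
    K ⊆ {p : ℝ × ℝ | p.1 ∈ Set.Icc (0 : ℝ) 1 ∧ p.2 = X p.1 ω} ∧
    μ Kᶜ = 0 ∧
    ∃ C : ℝ, ∀ ξ : ℝ × ℝ, 1 ≤ ‖ξ‖ →
      ‖∫ p, Complex.exp (((ξ.1 * p.1 + ξ.2 * p.2 : ℝ) : ℂ) * Complex.I) ∂μ‖
        ≤ C * ‖ξ‖ ^ (-(3 / 4 : ℝ) / 2) := by
  have hW1 : ∀ᵐ ω ∂PP, ∀ k : ℕ, W (g1 k 1) ω < ∞ := by
    rw [ae_all_iff]
    intro k
    exact ae_W_lt_top (measurable_g1 k 1) (ne_top_of_le_ne_top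
      (ENNReal.mul_ne_top ENNReal.ofReal_ne_top ENNReal.ofReal_ne_top) lintegral_g1)
  have hW2 : ∀ᵐ ω ∂PP, ∀ k : ℕ, 1 ≤ k → W (g2 k 1) ω < ∞ := by
    rw [ae_all_iff]
    intro k
    rcases Nat.eq_zero_or_pos k with rfl | hk
    · exact ae_of_all _ fun ω h => absurd h (by norm_num)
    · have hk0 : (0 : ℝ) < k := by exact_mod_cast hk
      filter_upwards [ae_W_lt_top (measurable_g2 k 1) (ne_top_of_le_ne_top
        (ENNReal.mul_ne_top ENNReal.ofReal_ne_top ENNReal.ofReal_ne_top) (lintegral_g2 hk0))]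
        with ω hω _
      exact hω
  filter_upwards [ae_good, hW1, hW2, liminf_Q] with ω hg hw1 hw2 hlim
  rintro ⟨μ, K, hμ, _, hK, hμK, C, hC⟩
  set ν : Measure ℝ := μ.map Prod.snd with hν
  have : IsProbabilityMeasure ν := Measure.isProbabilityMeasure_map measurable_snd.aemeasurable
  obtain ⟨B, hB⟩ := cells_lower (s := 3 / 4) (by norm_num) (by norm_num) ν C (by
    intro η hη
    have h1 := hC (0, η) (by simpa [Prod.norm_def] using hη)
    have h2 : charFun ν η = ∫ p : ℝ × ℝ, Complex.exp ((((0, η) : ℝ × ℝ).1 * p.1 +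
        ((0, η) : ℝ × ℝ).2 * p.2 : ℝ) * Complex.I) ∂μ := by
      rw [charFun_apply_real, hν, integral_map measurable_snd.aemeasurable (by fun_prop)]
      refine integral_congr_ae (ae_of_all _ fun p => ?_)
      simp
    rw [h2]
    refine h1.trans (le_of_eq ?_)
    have h3 : ‖((0, η) : ℝ × ℝ)‖ = |η| := by
      simp [Prod.norm_def]
    rw [h3])
  have hBpos : 0 < B := by
    obtain ⟨F, hF1, _⟩ := range_cells hg 1 le_rfl (hw1 1) (hw2 1 le_rfl)
    have h1 := hB 1 one_pos F (by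
      have h2 : ν {x | ⌊1 * x⌋ ∉ F} = μ {p | ⌊1 * p.2⌋ ∉ F} := by
        rw [hν, Measure.map_apply measurable_snd]
        · rfl
        · exact (Int.measurable_floor.comp (measurable_const_mul (1 : ℝ))) (MeasurableSet.of_discrete (s := {z : ℤ | z ∉ F}))
      rw [h2]
      refine measure_mono_null (fun p hp => ?_) hμK
      intro hpK
      obtain ⟨h3, h4⟩ := hK hpK
      apply hp
      have := hF1 p.1 h3
      rw [← h4] at this
      simpa using this)
    rw [Real.one_rpow] at h1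
    by_contra hneg
    push Not at hneg
    have : B * (F.card : ℝ) ≤ 0 := mul_nonpos_of_nonpos_of_nonneg hneg (Nat.cast_nonneg _)
    linarith
  have hlow : ∀ k : ℕ, (ENNReal.ofReal B)⁻¹ ≤ Q (k + 1) ω *
      ENNReal.ofReal ((((k + 1 : ℕ) : ℝ) ^ 2) ^ (-(3 / 4) : ℝ)) := by
    intro k
    obtain ⟨F, hF1, hF2⟩ := range_cells hg (k + 1) (by omega) (hw1 _) (hw2 _ (by omega))
    have hk : (0 : ℝ) < (((k + 1 : ℕ) : ℝ) ^ 2) := by positivity
    have h1 := hB (((k + 1 : ℕ) : ℝ) ^ 2) hk F (by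
      have h2 : ν {x | ⌊(((k + 1 : ℕ) : ℝ) ^ 2) * x⌋ ∉ F} = μ {p | ⌊(((k + 1 : ℕ) : ℝ) ^ 2) * p.2⌋ ∉ F} := by
        rw [hν, Measure.map_apply measurable_snd]
        · rfl
        · exact (Int.measurable_floor.comp (measurable_const_mul _)) (MeasurableSet.of_discrete (s := {z : ℤ | z ∉ F}))
      rw [h2]
      refine measure_mono_null (fun p hp => ?_) hμK
      intro hpK
      obtain ⟨h3, h4⟩ := hK hpK
      apply hp
      have := hF1 p.1 h3
      rwa [← h4] at this)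
    set y : ℝ := ((k + 1 : ℕ) : ℝ) ^ 2 with hy
    have hyp : 0 < y ^ (3 / 4 : ℝ) := Real.rpow_pos_of_pos hk _
    have h3 : y ^ (3 / 4 : ℝ) * y ^ (-(3 / 4) : ℝ) = 1 := by
      rw [← Real.rpow_add hk]; simp
    have hyn : 0 < y ^ (-(3 / 4) : ℝ) := Real.rpow_pos_of_pos hk _
    have h4 : B⁻¹ ≤ (F.card : ℝ) * y ^ (-(3 / 4) : ℝ) := by
      rw [inv_le_iff_one_le_mul₀ hBpos]
      calc (1 : ℝ) = y ^ (3 / 4 : ℝ) * y ^ (-(3 / 4) : ℝ) := h3.symm
        _ ≤ (B * F.card) * y ^ (-(3 / 4) : ℝ) := mul_le_mul_of_nonneg_right h1 hyn.le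
        _ = _ := by ring
    calc (ENNReal.ofReal B)⁻¹ = ENNReal.ofReal B⁻¹ := (ENNReal.ofReal_inv_of_pos hBpos).symm
      _ ≤ ENNReal.ofReal ((F.card : ℝ) * y ^ (-(3 / 4) : ℝ)) := ENNReal.ofReal_le_ofReal h4
      _ = (F.card : ℝ≥0∞) * ENNReal.ofReal (y ^ (-(3 / 4) : ℝ)) := by
          rw [ENNReal.ofReal_mul (Nat.cast_nonneg _), ENNReal.ofReal_natCast]
      _ ≤ _ := by gcongr
  have h5 : (ENNReal.ofReal B)⁻¹ ≤ liminf (fun k : ℕ => Q (k + 1) ω *
      ENNReal.ofReal ((((k + 1 : ℕ) : ℝ) ^ 2) ^ (-(3 / 4) : ℝ))) atTop :=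
    le_liminf_of_le (by isBoundedDefault) (Eventually.of_forall hlow)
  rw [hlim] at h5
  have h6 := le_antisymm h5 bot_le
  rw [ENNReal.inv_eq_zero] at h6
  exact ENNReal.ofReal_ne_top h6

end Pool.Agent.E8helper98.FG
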